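import Pool.Agent.Q199.SR.Stm

/-!
Base change of superalgebras and of their Grassmann envelopes (project SR of helper199).
-/

open TensorProduct

namespace Pool.Agent.Q199.SR

open Pool.Agent.Q29.SR

noncomputable section

universe u

namespace BC

section general

variable {F : Type u} [Field F]

/-- Homomorphisms commute with the evaluation of polynomials. -/
theorem map_lift {A B : Type u} [NonUnitalNonAssocRing A] [Module F A] [SMulCommClass F A A]
    [IsScalarTower F A A] [NonUnitalNonAssocRing B] [Module F B] [SMulCommClass F B B]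
    [IsScalarTower F B B] (φ : A →ₙₐ[F] B) (v : ℕ → A) (f : NAPoly F) :
    φ (FreeNonUnitalNonAssocAlgebra.lift F v f) =
      FreeNonUnitalNonAssocAlgebra.lift F (fun n => φ (v n)) f := by
  have h : φ.comp (FreeNonUnitalNonAssocAlgebra.lift F v) =
      FreeNonUnitalNonAssocAlgebra.lift F (fun n => φ (v n)) := by
    apply FreeNonUnitalNonAssocAlgebra.hom_ext
    intro n
    rw [NonUnitalAlgHom.comp_apply, FreeNonUnitalNonAssocAlgebra.lift_of_apply,
      FreeNonUnitalNonAssocAlgebra.lift_of_apply]
  exact congrArg (fun g : NAPoly F →ₙₐ[F] B => g f) h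

/-- The inclusion of a subalgebra. -/
theorem coe_lift {A : Type u} [NonUnitalNonAssocRing A] [Module F A] [SMulCommClass F A A]
    [IsScalarTower F A A] (S : NonUnitalSubalgebra F A) (v : ℕ → S) (f : NAPoly F) :
    ((FreeNonUnitalNonAssocAlgebra.lift F v f : S) : A) =
      FreeNonUnitalNonAssocAlgebra.lift F (fun n => (v n : A)) f :=
  map_lift (NonUnitalSubalgebraClass.subtype S) v f

/-- An identity of a subalgebra. -/
theorem isIdentity_iff {A : Type u} [NonUnitalNonAssocRing A] [Module F A] [SMulCommClass F A A]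
    [IsScalarTower F A A] (S : NonUnitalSubalgebra F A) (f : NAPoly F) :
    IsIdentity S f ↔ ∀ v : ℕ → A, (∀ n, v n ∈ S) →
      FreeNonUnitalNonAssocAlgebra.lift F v f = 0 := by
  constructor
  · intro h v hv
    have h1 := h (fun n => ⟨v n, hv n⟩)
    have h2 := coe_lift S (fun n => ⟨v n, hv n⟩) f
    rw [h1] at h2
    exact h2.symm
  · intro h v
    apply Subtype.ext
    rw [coe_lift S v f]
    exact h _ fun n => (v n).2

end general

section base

variable (F : Type u) [Field F] (K : Type u) [Field K] [Algebra F K] (B : SuperAlg F)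

/-- The underlying algebra. -/
abbrev T : Type u := K ⊗[F] B.carrier

/-- The parts. -/
def tpart (p : ZMod 2) : Submodule F (T F K B) :=
  LinearMap.range (LinearMap.lTensor K (B.part p).subtype)

theorem mem_tpart_tmul {p : ZMod 2} (k : K) {b : B.carrier} (hb : b ∈ B.part p) :
    (k ⊗ₜ[F] b : T F K B) ∈ tpart F K B p :=
  ⟨k ⊗ₜ ⟨b, hb⟩, by simp⟩

theorem tpart_induction {p : ZMod 2} {P : T F K B → Prop} (h0 : P 0)
    (ht : ∀ (k : K) (b : B.carrier), b ∈ B.part p → P (k ⊗ₜ b))
    (ha : ∀ x y, P x → P y → P (x + y)) {x : T F K B} (hx : x ∈ tpart F K B p) : P x := by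
  obtain ⟨y, rfl⟩ := hx
  induction y using TensorProduct.induction_on with
  | zero => rw [map_zero]; exact h0
  | tmul k b => rw [LinearMap.lTensor_tmul]; exact ht k b.1 b.2
  | add y z hy hz => rw [map_add]; exact ha _ _ hy hz

theorem tpart_mul {i j : ZMod 2} {a b : T F K B} (ha : a ∈ tpart F K B i)
    (hb : b ∈ tpart F K B j) : a * b ∈ tpart F K B (i + j) := by
  refine tpart_induction F K B (P := fun a => a * b ∈ tpart F K B (i + j)) ?_ ?_ ?_ ha
  · rw [zero_mul]; exact Submodule.zero_mem _
  · intro k x hx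
    refine tpart_induction F K B (P := fun b => (k ⊗ₜ[F] x : T F K B) * b ∈ tpart F K B (i + j))
      ?_ ?_ ?_ hb
    · rw [mul_zero]; exact Submodule.zero_mem _
    · intro k' y hy
      rw [Algebra.TensorProduct.tmul_mul_tmul]
      exact mem_tpart_tmul F K B _ (B.mul_mem hx hy)
    · intro y z hy hz
      rw [mul_add]; exact Submodule.add_mem _ hy hz
  · intro x y hx hy
    rw [add_mul]; exact Submodule.add_mem _ hx hy

theorem tpart_isCompl : IsCompl (tpart F K B 0) (tpart F K B 1) := by
  have hc := B.isCompl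
  let p0 : B.carrier →ₗ[F] B.part 0 := (B.part 0).projectionOnto (B.part 1) hc
  have h1 : ∀ x ∈ tpart F K B 1, LinearMap.lTensor K p0 x = 0 := by
    intro x hx
    refine tpart_induction F K B (P := fun x => LinearMap.lTensor K p0 x = 0) ?_ ?_ ?_ hx
    · rw [map_zero]
    · intro k b hb
      rw [LinearMap.lTensor_tmul]
      have : p0 b = 0 := Submodule.projectionOnto_apply_right hc ⟨b, hb⟩
      rw [this, TensorProduct.tmul_zero]
    · intro x y hx hy
      rw [map_add, hx, hy, add_zero]
  have h0 : ∀ x ∈ tpart F K B 0,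
      LinearMap.lTensor K ((B.part 0).subtype) (LinearMap.lTensor K p0 x) = x := by
    intro x hx
    refine tpart_induction F K B (P := fun x => LinearMap.lTensor K ((B.part 0).subtype)
      (LinearMap.lTensor K p0 x) = x) ?_ ?_ ?_ hx
    · rw [map_zero, map_zero]
    · intro k b hb
      rw [LinearMap.lTensor_tmul, LinearMap.lTensor_tmul]
      have : p0 b = ⟨b, hb⟩ := Submodule.projectionOnto_apply_left hc ⟨b, hb⟩
      rw [this]
      rfl
    · intro x y hx hy
      rw [map_add, map_add, hx, hy]
  constructor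
  · rw [Submodule.disjoint_def]
    intro x hx0 hx1
    rw [← h0 x hx0, h1 x hx1, map_zero]
  · rw [codisjoint_iff, eq_top_iff]
    intro x _
    induction x using TensorProduct.induction_on with
    | zero => exact Submodule.zero_mem _
    | add x y hx hy => exact Submodule.add_mem _ (hx trivial) (hy trivial)
    | tmul k b =>
      have hb : b ∈ B.part 0 ⊔ B.part 1 := by rw [hc.sup_eq_top]; trivial
      obtain ⟨b0, hb0, b1, hb1, rfl⟩ := Submodule.mem_sup.mp hb
      rw [TensorProduct.tmul_add]
      exact Submodule.add_mem_sup (mem_tpart_tmul F K B k hb0) (mem_tpart_tmul F K B k hb1)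

/-- The base change. -/
def C : SuperAlg F where
  carrier := T F K B
  ring := Algebra.TensorProduct.instNonUnitalNonAssocRing (R := F) (A := K) (B := B.carrier)
  module := TensorProduct.instModule (R := F) (M := K) (N := B.carrier)
  comm := Algebra.TensorProduct.sMulCommClass_right (S := F) (R := F) (A := K) (B := B.carrier)
  tower := Algebra.TensorProduct.isScalarTower_right (S := F) (R := F) (A := K) (B := B.carrier)
  part := tpart F K B
  isCompl := tpart_isCompl F K B
  mul_mem := tpart_mul F K B

/-- The carrier. -/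
abbrev CC : Type u := (C F K B).carrier

/-- The element `k ⊗ b`. -/
def tm (k : K) (b : B.carrier) : CC F K B := k ⊗ₜ[F] b

theorem tm_mul (k k' : K) (b b' : B.carrier) :
    tm F K B k b * tm F K B k' b' = tm F K B (k * k') (b * b') :=
  Algebra.TensorProduct.tmul_mul_tmul (R := F) (A := K) k k' b b'

theorem CC_induction {P : CC F K B → Prop} (h0 : P 0)
    (ht : ∀ (k : K) (b : B.carrier), P (tm F K B k b))
    (ha : ∀ x y, P x → P y → P (x + y)) (x : CC F K B) : P x :=
  TensorProduct.induction_on (motive := P) x h0 ht ha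

/-- The big algebra. -/
abbrev E : Type u := Gr F ⊗[F] (CC F K B)

/-- The action of `K` on `K ⊗ B`. -/
def rho0 : K →ₐ[F] Module.End F (CC F K B) := Algebra.lsmul F F (T F K B)

theorem rho0_tm (κ k : K) (b : B.carrier) :
    rho0 F K B κ (tm F K B k b) = tm F K B (κ * k) b := rfl

/-- The action of `K`. -/
def rho : K →ₐ[F] Module.End F (E F K B) :=
  (Module.End.lTensorAlgHom F (CC F K B) (Gr F)).comp (rho0 F K B)

theorem rho_tmul (κ : K) (g : Gr F) (k : K) (b : B.carrier) :
    rho F K B κ (g ⊗ₜ (tm F K B k b)) = g ⊗ₜ (tm F K B (κ * k) b) := rfl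

/-- induction on the elements of `E` -/
theorem E_induction {P : E F K B → Prop} (h0 : P 0)
    (ht : ∀ (g : Gr F) (k : K) (b : B.carrier), P (g ⊗ₜ (tm F K B k b)))
    (ha : ∀ x y, P x → P y → P (x + y)) (x : E F K B) : P x := by
  induction x using TensorProduct.induction_on with
  | zero => exact h0
  | add x y hx hy => exact ha _ _ hx hy
  | tmul g t =>
    refine CC_induction F K B (P := fun t => P (g ⊗ₜ t)) ?_ ?_ ?_ t
    · rw [TensorProduct.tmul_zero]; exact h0
    · intro k b
      exact ht g k b
    · intro x y hx hy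
      rw [TensorProduct.tmul_add]; exact ha _ _ hx hy

theorem tmul_mul (g g' : Gr F) (k k' : K) (b b' : B.carrier) :
    (g ⊗ₜ[F] (tm F K B k b) : E F K B) * (g' ⊗ₜ[F] (tm F K B k' b')) =
      (g * g') ⊗ₜ[F] (tm F K B (k * k') (b * b')) := by
  rw [Algebra.TensorProduct.tmul_mul_tmul, tm_mul]

theorem rho_mul_left (κ : K) (x y : E F K B) :
    rho F K B κ (x * y) = rho F K B κ x * y := by
  induction x using E_induction with
  | h0 => rw [zero_mul, map_zero, zero_mul]
  | ha x x' hx hx' => rw [add_mul, map_add, map_add, add_mul, hx, hx']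
  | ht g k b =>
    induction y using E_induction with
    | h0 => rw [mul_zero, map_zero, mul_zero]
    | ha y y' hy hy' => rw [mul_add, map_add, mul_add, hy, hy']
    | ht g' k' b' => rw [tmul_mul, rho_tmul, rho_tmul, tmul_mul, mul_assoc]

theorem rho_mul_right (κ : K) (x y : E F K B) :
    rho F K B κ (x * y) = x * rho F K B κ y := by
  induction x using E_induction with
  | h0 => rw [zero_mul, map_zero, zero_mul]
  | ha x x' hx hx' => rw [add_mul, map_add, add_mul, hx, hx']
  | ht g k b =>
    induction y using E_induction with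
    | h0 => rw [mul_zero, map_zero, mul_zero]
    | ha y y' hy hy' => rw [mul_add, map_add, map_add, mul_add, hy, hy']
    | ht g' k' b' => rw [tmul_mul, rho_tmul, rho_tmul, tmul_mul, mul_left_comm]

/-- `b ↦ 1 ⊗ b` -/
def one0 : B.carrier →ₗ[F] CC F K B := TensorProduct.mk F K B.carrier 1

theorem one0_apply (b : B.carrier) : one0 F K B b = tm F K B 1 b := rfl

theorem one0_injective : Function.Injective (one0 F K B) :=
  Module.Flat.tensorProduct_mk_injective (R := F) (S := K) (M := B.carrier)

/-- The linear embedding `g ⊗ b ↦ g ⊗ (1 ⊗ b)`. -/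
def psiL : Gr F ⊗[F] B.carrier →ₗ[F] E F K B := LinearMap.lTensor (Gr F) (one0 F K B)

theorem psiL_tmul (g : Gr F) (b : B.carrier) : psiL F K B (g ⊗ₜ b) = g ⊗ₜ (tm F K B 1 b) := rfl

theorem psiL_injective : Function.Injective (psiL F K B) :=
  Module.Flat.lTensor_preserves_injective_linearMap _ (one0_injective F K B)

theorem psiL_mul (x y : Gr F ⊗[F] B.carrier) :
    psiL F K B (x * y) = psiL F K B x * psiL F K B y := by
  induction x using TensorProduct.induction_on with
  | zero => rw [zero_mul, map_zero, zero_mul]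
  | add x x' hx hx' => rw [add_mul, map_add, map_add, add_mul, hx, hx']
  | tmul g b =>
    induction y using TensorProduct.induction_on with
    | zero => rw [mul_zero, map_zero, mul_zero]
    | add y y' hy hy' => rw [mul_add, map_add, map_add, mul_add, hy, hy']
    | tmul g' b' =>
      rw [Algebra.TensorProduct.tmul_mul_tmul, psiL_tmul, psiL_tmul, psiL_tmul, tmul_mul, mul_one]

/-- The embedding as a homomorphism. -/
def psi : Gr F ⊗[F] B.carrier →ₙₐ[F] E F K B where
  toFun := psiL F K B
  map_smul' c x := (psiL F K B).map_smul c x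
  map_zero' := (psiL F K B).map_zero
  map_add' := (psiL F K B).map_add
  map_mul' := psiL_mul F K B

theorem psi_apply (x : Gr F ⊗[F] B.carrier) : psi F K B x = psiL F K B x := rfl

/-- `ψ` maps the envelope of `B` to the envelope of `K ⊗ B`. -/
theorem psi_mem {x : Gr F ⊗[F] B.carrier} (hx : x ∈ envSpace B.part) :
    psiL F K B x ∈ envSpace (C F K B).part := by
  change x ∈ Submodule.span F _ at hx
  induction hx using Submodule.span_induction with
  | zero => rw [map_zero]; exact Submodule.zero_mem _
  | add x y _ _ hx hy => rw [map_add]; exact Submodule.add_mem _ hx hy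
  | smul c x _ hx => rw [map_smul]; exact Submodule.smul_mem _ c hx
  | mem x hx =>
    obtain ⟨i, g, a, hg, ha, rfl⟩ := hx
    rw [psiL_tmul]
    exact Submodule.subset_span ⟨i, g, _, hg, mem_tpart_tmul F K B 1 ha, rfl⟩

/-- The envelope of `K ⊗ B` is spanned by the multiples of the image of the envelope of `B`. -/
theorem env_span {x : E F K B} (hx : x ∈ envSpace (C F K B).part) :
    x ∈ Submodule.span F {x | ∃ κ, ∃ y ∈ (envelope B.part (isSuper B)).map (psi F K B),
      x = rho F K B κ y} := by
  change x ∈ Submodule.span F _ at hx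
  refine Submodule.span_le.mpr ?_ hx
  rintro x ⟨i, g, a, hg, ha, rfl⟩
  refine tpart_induction F K B (P := fun a => (g ⊗ₜ[F] (a : CC F K B) : E F K B) ∈
    Submodule.span F {x | ∃ κ, ∃ y ∈ (envelope B.part (isSuper B)).map (psi F K B),
      x = rho F K B κ y}) ?_ ?_ ?_ ha
  · have : (g ⊗ₜ[F] (0 : CC F K B) : E F K B) = 0 := TensorProduct.tmul_zero _ _
    change (g ⊗ₜ[F] (0 : CC F K B) : E F K B) ∈ _
    rw [this]
    exact Submodule.zero_mem _
  · intro k b hb
    refine Submodule.subset_span ⟨k, psi F K B (g ⊗ₜ b), ?_, ?_⟩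
    · refine NonUnitalSubalgebra.mem_map.mpr ⟨g ⊗ₜ b, ?_, rfl⟩
      exact Submodule.subset_span ⟨i, g, b, hg, hb, rfl⟩
    · rw [psi_apply, psiL_tmul, rho_tmul, mul_one]
      rfl
  · intro x y hx hy
    have : (g ⊗ₜ[F] (x + y : CC F K B) : E F K B) = g ⊗ₜ[F] (x : CC F K B) + g ⊗ₜ[F] (y : CC F K B) :=
      TensorProduct.tmul_add _ _ _
    change (g ⊗ₜ[F] (x + y : CC F K B) : E F K B) ∈ _
    rw [this]
    exact Submodule.add_mem _ hx hy

theorem satisfies_iff [Infinite F] (hSE : S_SE.{u}) (f : NAPoly F) :
    B.envelope.Satisfies f ↔ (C F K B).envelope.Satisfies f := by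
  rw [envelope_satisfies_iff, envelope_satisfies_iff, isIdentity_iff, isIdentity_iff]
  constructor
  · intro h v hv
    refine hSE F K (E F K B) (rho F K B) (rho_mul_left F K B) (rho_mul_right F K B)
      ((envelope B.part (isSuper B)).map (psi F K B)) f ?_ v ?_
    · intro w hw
      have hw' : ∀ n, ∃ x ∈ envelope B.part (isSuper B), psi F K B x = w n := fun n =>
        NonUnitalSubalgebra.mem_map.mp (hw n)
      choose z hz hzw using hw'
      have h1 := map_lift (psi F K B) z f
      rw [h z hz, map_zero] at h1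
      have h2 : w = fun n => psi F K B (z n) := by funext n; rw [hzw]
      rw [h2]
      exact h1.symm
    · intro n
      exact env_span F K B (hv n)
  · intro h v hv
    apply psiL_injective F K B
    have h1 := map_lift (psi F K B) v f
    rw [← psi_apply, h1, map_zero]
    exact h _ fun n => psi_mem F K B (hv n)

end base

end BC

theorem t_BC (h : S_SE.{u}) : S_BC.{u} := by
  intro F _ _ K _ _ B
  refine ⟨BC.C F K B, LinearEquiv.refl F _, ?_, ?_, ?_⟩
  · intro x y
    rfl
  · intro p x
    rfl
  · intro f
    exact BC.satisfies_iff F K B h f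

end

end Pool.Agent.Q199.SR
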