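import Pool.Agent.Q199.SR.Tr

/-!
Assembly, part 1: the superalgebra generated by two even elements and odd elements.
-/

open TensorProduct

namespace Pool.Agent.Q199.SR

open Pool.Agent.Q29.SR

universe u

noncomputable section

namespace Core

section Gr

variable {F : Type u} [Field F]

theorem shn_add (a b : ℕ) (g : Gr F) : shn F (a + b) g = shn F a (shn F b g) := by
  induction b generalizing g with
  | zero => rfl
  | succ b ih =>
    change shn F (a + b) (shiftG g) = shn F a (shn F b (shiftG g))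
    exact ih _

theorem shn_shn (N : ℕ) (g : Gr F) : shn F N (shn F N g) = shn F (2 * N) g := by
  rw [← shn_add, two_mul]

theorem shiftG_e (k : ℕ) : shiftG (e F k) = e F (k + 1) := by
  unfold e
  rw [shiftG_iota]
  congr 1
  exact Finsupp.mapDomain_single

theorem shn_e (n k : ℕ) : shn F n (e F k) = e F (n + k) := by
  induction n generalizing k with
  | zero => rw [zero_add]; rfl
  | succ n ih =>
    change shn F n (shiftG (e F k)) = _
    rw [shiftG_e, ih]
    congr 1
    omega

theorem shn_mem (n : ℕ) {i : ZMod 2} {g : Gr F} (hg : g ∈ GrPart F i) :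
    shn F n g ∈ GrPart F i := by
  induction n generalizing g with
  | zero => exact hg
  | succ n ih => exact ih (shiftG_mem hg)

theorem e_mem (k : ℕ) : e F k ∈ GrPart F 1 :=
  CliffordAlgebra.ι_mem_evenOdd_one (0 : QuadraticForm F (ℕ →₀ F)) _

theorem e_mul_mem (k : ℕ) {g : Gr F} (hg : g ∈ GrPart F 0) : e F k * g ∈ GrPart F 1 := by
  have := SetLike.mul_mem_graded (A := CliffordAlgebra.evenOdd (0 : QuadraticForm F (ℕ →₀ F)))
    (e_mem (F := F) k) hg
  rwa [add_zero] at this

end Gr

variable {F : Type u} [Field F] {K : Type u} [Field K] [Algebra F K]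

/-- the action of `K` on `Gr ⊗ C` -/
def rE {C : SuperAlg F} (ρ : K →ₐ[F] Module.End F C.carrier) :
    K →ₐ[F] Module.End F (Gr F ⊗[F] C.carrier) :=
  (Module.End.lTensorAlgHom F C.carrier (Gr F)).comp ρ

theorem rE_tmul {C : SuperAlg F} (ρ : K →ₐ[F] Module.End F C.carrier) (κ : K) (g : Gr F)
    (x : C.carrier) : rE ρ κ (g ⊗ₜ[F] x) = g ⊗ₜ[F] ρ κ x := rfl

theorem rE_mul_left {C : SuperAlg F} (ρ : K →ₐ[F] Module.End F C.carrier)
    (hl : ∀ κ x y, ρ κ (x * y) = ρ κ x * y) (κ : K) (x y : Gr F ⊗[F] C.carrier) :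
    rE ρ κ (x * y) = rE ρ κ x * y := by
  induction x with
  | zero => rw [zero_mul, map_zero, zero_mul]
  | add x x' h h' => rw [add_mul, map_add, map_add, h, h', add_mul]
  | tmul g x =>
    induction y with
    | zero => rw [mul_zero, map_zero, mul_zero]
    | add y y' h h' => rw [mul_add, map_add, h, h', mul_add]
    | tmul g' y =>
      rw [Algebra.TensorProduct.tmul_mul_tmul, rE_tmul, rE_tmul, hl,
        Algebra.TensorProduct.tmul_mul_tmul]

theorem rE_mul_right {C : SuperAlg F} (ρ : K →ₐ[F] Module.End F C.carrier)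
    (hr : ∀ κ x y, ρ κ (x * y) = x * ρ κ y) (κ : K) (x y : Gr F ⊗[F] C.carrier) :
    rE ρ κ (x * y) = x * rE ρ κ y := by
  induction x with
  | zero => rw [zero_mul, map_zero, zero_mul]
  | add x x' h h' => rw [add_mul, map_add, h, h', add_mul]
  | tmul g x =>
    induction y with
    | zero => rw [mul_zero, map_zero, mul_zero]
    | add y y' h h' => rw [mul_add, map_add, map_add, h, h', mul_add]
    | tmul g' y =>
      rw [Algebra.TensorProduct.tmul_mul_tmul, rE_tmul, rE_tmul, hr,
        Algebra.TensorProduct.tmul_mul_tmul]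

theorem core (hSE : S_SE.{u}) (hEXT : S_EXT.{u}) (hSUB : S_SUB.{u}) (hRQ : S_RQ.{u})
    [CharZero F] (C : SuperAlg F) (ρ : K →ₐ[F] Module.End F C.carrier)
    (hl : ∀ κ x y, ρ κ (x * y) = ρ κ x * y) (hr : ∀ κ x y, ρ κ (x * y) = x * ρ κ y)
    (u v : C.carrier) (hu : u ∈ C.part 0) (hv : v ∈ C.part 0) (m l : ℕ)
    (b : Fin m → C.carrier) (hb : ∀ k, b k ∈ C.part 1)
    (c : Fin l → C.carrier) (hc : ∀ k, c k ∈ C.part 0) (N : ℕ) (W : ℕ → Submodule F C.carrier)
    (hW0 : W 0 = ⊤) (hWm : ∀ a b, ∀ x ∈ W a, ∀ y ∈ W b, x * y ∈ W (a + b))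
    (hWN : ∀ d, N ≤ d → W d = ⊥) (hcW : ∀ κ k, ρ κ (c k) ∈ W 1)
    (h0 : ∀ x ∈ C.part 0,
      ∃ x' ∈ Submodule.span F {y | ∃ κ : K, ∃ p ∈ Subsemigroup.closure {u, v}, y = ρ κ p},
      ∃ x'' ∈ Submodule.span F {y | ∃ (κ : K) (k : Fin l), y = ρ κ (c k)}, x = x' + x'')
    (h1 : ∀ x ∈ C.part 1, x ∈ Submodule.span F {y | ∃ (κ : K) (k : Fin m), y = ρ κ (b k)}) :
    ∃ (s : ℕ) (A : SuperAlg F), A.GeneratedBy 2 s ∧
      ∀ f, C.envelope.Satisfies f ↔ A.envelope.Satisfies f := by
  obtain ⟨D, ⟨X⟩⟩ := hEXT F C N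
  -- the odd generators
  let J := Fin m ⊕ (Fin N × Fin l)
  let bb : J → D.carrier := fun t => match t with
    | Sum.inl k => X.i (b k)
    | Sum.inr (k, k') => X.j k (c k')
  let aa : Fin 2 → D.carrier := ![X.i u, X.i v]
  have haa : ∀ k, aa k ∈ D.part 0 := by
    intro k
    fin_cases k
    · exact X.i_mem 0 u hu
    · exact X.i_mem 0 v hv
  have hbb : ∀ t, bb t ∈ D.part 1 := by
    rintro (k | ⟨k, k'⟩)
    · exact X.i_mem 1 _ (hb k)
    · have := X.j_mem k k.2 0 _ (hc k')
      rwa [zero_add] at this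
  let eJ := Fintype.equivFin J
  obtain ⟨A, ι, hι, hιm, hιp, hgen, hran⟩ := hSUB F D 2 (Fintype.card J) aa
    (fun t => bb (eJ.symm t)) haa (fun t => hbb _)
  refine ⟨Fintype.card J, A, hgen, ?_⟩
  -- the embedding of the envelope of `A`
  let L : Gr F ⊗[F] A.carrier →ₗ[F] Gr F ⊗[F] D.carrier := LinearMap.lTensor (Gr F) ι
  have hLt : ∀ g x, L (g ⊗ₜ x) = g ⊗ₜ ι x := fun g x => rfl
  have hLinj : Function.Injective L := Module.Flat.lTensor_preserves_injective_linearMap ι hι
  have hLmem : ∀ x ∈ envSpace A.part, L x ∈ envSpace D.part := by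
    intro x hx
    change x ∈ Submodule.span F _ at hx
    induction hx using Submodule.span_induction with
    | zero => rw [map_zero]; exact Submodule.zero_mem _
    | add x y _ _ h h' => rw [map_add]; exact Submodule.add_mem _ h h'
    | smul a x _ h => rw [map_smul]; exact Submodule.smul_mem _ _ h
    | mem x hx =>
      obtain ⟨p, g, a, hg, ha, rfl⟩ := hx
      exact Submodule.subset_span ⟨p, g, ι a, hg, (hιp p a).1 ha, rfl⟩
  have hLmul : ∀ x y, L (x * y) = L x * L y := by
    intro x y
    induction x with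
    | zero => rw [zero_mul, map_zero, zero_mul]
    | add x x' h h' => rw [add_mul, map_add, map_add, h, h', add_mul]
    | tmul g x =>
      induction y with
      | zero => rw [mul_zero, map_zero, mul_zero]
      | add y y' h h' => rw [mul_add, map_add, map_add, h, h', mul_add]
      | tmul g' y =>
        rw [Algebra.TensorProduct.tmul_mul_tmul, hLt, hLt, hLt, hιm,
          Algebra.TensorProduct.tmul_mul_tmul]
  let Ψ : Gr F ⊗[F] A.carrier →ₗ[F] Gr F ⊗[F] C.carrier := X.Φ ∘ₗ L
  have hΨinj : Function.Injective Ψ := X.Φ_inj.comp hLinj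
  have hΨmem : ∀ x ∈ envSpace A.part, Ψ x ∈ envSpace C.part := fun x hx => X.Φ_mem _ (hLmem x hx)
  have hΨmul : ∀ x ∈ envSpace A.part, ∀ y ∈ envSpace A.part, Ψ (x * y) = Ψ x * Ψ y := by
    intro x hx y hy
    change X.Φ (L (x * y)) = X.Φ (L x) * X.Φ (L y)
    rw [hLmul, X.Φ_mul _ (hLmem x hx) _ (hLmem y hy)]
  -- elements of the image
  have him : ∀ (p : ZMod 2) (g : Gr F) (d : D.carrier), g ∈ GrPart F p → d ∈ D.part p →
      d ∈ NonUnitalAlgebra.adjoin F (Set.range aa ∪ Set.range fun t => bb (eJ.symm t)) →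
      X.Φ (g ⊗ₜ d) ∈ Tr.img Ψ hΨmul := by
    intro p g d hg hd hdg
    obtain ⟨z, rfl⟩ := hran d hdg
    have : g ⊗ₜ[F] z ∈ envSpace A.part :=
      Submodule.subset_span ⟨p, g, z, hg, (hιp p z).2 hd, rfl⟩
    exact Tr.mem_img Ψ hΨmul this
  have hadj_b : ∀ t : J, bb t ∈
      NonUnitalAlgebra.adjoin F (Set.range aa ∪ Set.range fun t => bb (eJ.symm t)) := by
    intro t
    apply NonUnitalAlgebra.subset_adjoin F
    exact Or.inr ⟨eJ t, by simp⟩
  have hcl : ∀ p ∈ Subsemigroup.closure {u, v}, p ∈ C.part 0 ∧ X.i p ∈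
      NonUnitalAlgebra.adjoin F (Set.range aa ∪ Set.range fun t => bb (eJ.symm t)) := by
    intro p hp
    induction hp using Subsemigroup.closure_induction with
    | mem x hx =>
      rcases hx with rfl | hx
      · exact ⟨hu, NonUnitalAlgebra.subset_adjoin F (Or.inl ⟨0, rfl⟩)⟩
      · rw [Set.mem_singleton_iff] at hx
        subst hx
        exact ⟨hv, NonUnitalAlgebra.subset_adjoin F (Or.inl ⟨1, rfl⟩)⟩
    | mul x y _ _ hx hy =>
      refine ⟨?_, ?_⟩
      · have := C.mul_mem hx.1 hy.1
        rwa [add_zero] at this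
      · rw [X.i_mul]
        exact mul_mem hx.2 hy.2
  intro f
  refine ⟨fun hf => Tr.down Ψ hΨinj hΨmem hΨmul f hf, fun hf => ?_⟩
  set H := Tr.img Ψ hΨmul with hH
  have hHf := fun w hw => Tr.img_sat Ψ hΨmul f hf w hw
  set Sp := Submodule.span F {x | ∃ κ, ∃ y ∈ H, x = rE ρ κ y} with hSp
  -- the decomposition
  have key : ∀ x ∈ envSpace C.part, ∃ x' x'', x = x' + x'' ∧ x'' ∈ GW (W 1) ∧
      sg C.carrier N x' ∈ Sp ∧ mt C.carrier N (sg C.carrier N x'') ∈ Sp := by
    intro x hx
    change x ∈ Submodule.span F _ at hx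
    induction hx using Submodule.span_induction with
    | zero =>
      refine ⟨0, 0, by rw [add_zero], Submodule.zero_mem _, ?_, ?_⟩
      · rw [map_zero]; exact Submodule.zero_mem _
      · rw [map_zero, map_zero]; exact Submodule.zero_mem _
    | add x y _ _ hx hy =>
      obtain ⟨x', x'', rfl, hx1, hx2, hx3⟩ := hx
      obtain ⟨y', y'', rfl, hy1, hy2, hy3⟩ := hy
      refine ⟨x' + y', x'' + y'', by abel, Submodule.add_mem _ hx1 hy1, ?_, ?_⟩
      · rw [map_add]; exact Submodule.add_mem _ hx2 hy2
      · rw [map_add, map_add]; exact Submodule.add_mem _ hx3 hy3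
    | smul a x _ hx =>
      obtain ⟨x', x'', rfl, hx1, hx2, hx3⟩ := hx
      refine ⟨a • x', a • x'', smul_add _ _ _, Submodule.smul_mem _ _ hx1, ?_, ?_⟩
      · rw [map_smul]; exact Submodule.smul_mem _ _ hx2
      · rw [map_smul, map_smul]; exact Submodule.smul_mem _ _ hx3
    | mem x hx =>
      obtain ⟨p, g, a, hg, ha, rfl⟩ := hx
      have hp : p = 0 ∨ p = 1 := by
        fin_cases p
        · exact Or.inl rfl
        · exact Or.inr rfl
      rcases hp with rfl | rfl
      · obtain ⟨x', hx', x'', hx'', rfl⟩ := h0 a ha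
        clear ha
        refine ⟨g ⊗ₜ x', g ⊗ₜ x'', TensorProduct.tmul_add _ _ _, ?_, ?_, ?_⟩
        · induction hx'' using Submodule.span_induction with
          | zero => rw [TensorProduct.tmul_zero]; exact Submodule.zero_mem _
          | add x y _ _ h h' => rw [TensorProduct.tmul_add]; exact Submodule.add_mem _ h h'
          | smul a x _ h => rw [TensorProduct.tmul_smul]; exact Submodule.smul_mem _ _ h
          | mem x hx =>
            obtain ⟨κ, k, rfl⟩ := hx
            exact Submodule.subset_span ⟨g, _, hcW κ k, rfl⟩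
        · induction hx' using Submodule.span_induction with
          | zero => rw [TensorProduct.tmul_zero, map_zero]; exact Submodule.zero_mem _
          | add x y _ _ h h' =>
            rw [TensorProduct.tmul_add, map_add]; exact Submodule.add_mem _ h h'
          | smul a x _ h =>
            rw [TensorProduct.tmul_smul, map_smul]; exact Submodule.smul_mem _ _ h
          | mem x hx =>
            obtain ⟨κ, p, hp, rfl⟩ := hx
            obtain ⟨hp0, hpg⟩ := hcl p hp
            refine Submodule.subset_span ⟨κ, shn F (2 * N) g ⊗ₜ p, ?_, rfl⟩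
            have := him 0 (shn F N g) (X.i p) (shn_mem N hg) (X.i_mem 0 p hp0) hpg
            rw [X.Φ_i, shn_shn] at this
            exact this
        · induction hx'' using Submodule.span_induction with
          | zero => rw [TensorProduct.tmul_zero, map_zero, map_zero]; exact Submodule.zero_mem _
          | add x y _ _ h h' =>
            rw [TensorProduct.tmul_add, map_add, map_add]; exact Submodule.add_mem _ h h'
          | smul a x _ h =>
            rw [TensorProduct.tmul_smul, map_smul, map_smul]; exact Submodule.smul_mem _ _ h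
          | mem x hx =>
            obtain ⟨κ, k, rfl⟩ := hx
            have e1 : mt C.carrier N (sg C.carrier N (g ⊗ₜ ρ κ (c k))) =
                ∑ j ∈ Finset.range N,
                  rE ρ κ ((e F j * shn F N (e F j * shn F N g)) ⊗ₜ c k) := by
              change (tau F N * shn F (2 * N) g) ⊗ₜ[F] ρ κ (c k) = _
              unfold tau
              rw [Finset.sum_mul, TensorProduct.sum_tmul]
              refine Finset.sum_congr rfl fun j _ => ?_
              rw [rE_tmul, map_mul, shn_e, shn_shn, mul_assoc]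
            rw [e1]
            refine Submodule.sum_mem _ fun j hj => ?_
            have hj' := Finset.mem_range.1 hj
            refine Submodule.subset_span ⟨κ, _, ?_, rfl⟩
            have hm := X.j_mem j hj' 0 _ (hc k)
            rw [zero_add] at hm
            have := him 1 (e F j * shn F N g) (X.j j (c k)) (e_mul_mem j (shn_mem N hg)) hm
              (hadj_b (Sum.inr (⟨j, hj'⟩, k)))
            rw [X.Φ_j j hj'] at this
            exact this
      · refine ⟨g ⊗ₜ a, 0, by rw [add_zero], Submodule.zero_mem _, ?_, ?_⟩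
        · have ha' := h1 a ha
          clear ha
          induction ha' using Submodule.span_induction with
          | zero => rw [TensorProduct.tmul_zero, map_zero]; exact Submodule.zero_mem _
          | add x y _ _ h h' =>
            rw [TensorProduct.tmul_add, map_add]; exact Submodule.add_mem _ h h'
          | smul a x _ h =>
            rw [TensorProduct.tmul_smul, map_smul]; exact Submodule.smul_mem _ _ h
          | mem x hx =>
            obtain ⟨κ, k, rfl⟩ := hx
            refine Submodule.subset_span ⟨κ, shn F (2 * N) g ⊗ₜ b k, ?_, rfl⟩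
            have := him 1 (shn F N g) (X.i (b k)) (shn_mem N hg) (X.i_mem 1 _ (hb k))
              (hadj_b (Sum.inl k))
            rw [X.Φ_i, shn_shn] at this
            exact this
        · rw [map_zero, map_zero]; exact Submodule.zero_mem _
  rw [envelope_satisfies_iff]
  intro w
  choose x' x'' hx hxW hx1 hx2 using fun n => key (w n).1 (w n).2
  have hy := hSE F K (Gr F ⊗[F] C.carrier) (rE ρ) (rE_mul_left ρ hl) (rE_mul_right ρ hr) H f hHf
    (fun n => sg C.carrier N (x' n) + mt C.carrier N (sg C.carrier N (x'' n)))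
    (fun n => Submodule.add_mem _ (hx1 n) (hx2 n))
  have hz := hRQ F C.carrier N W hW0 hWm hWN f x' x'' hxW hy
  apply Subtype.ext
  rw [Tr.coe_lift]
  have : (fun n => ((w n : envelope C.part (isSuper C)) : Gr F ⊗[F] C.carrier)) =
      fun n => x' n + x'' n := funext fun n => hx n
  rw [this]
  exact hz

end Core

end

end Pool.Agent.Q199.SR
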