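import Pool.Agent.Q199.SR.Stm

/-!
Project SR (helper199), lemma EXT: `N` odd variables, by induction from one odd variable.
-/

set_option autoImplicit false

open TensorProduct

namespace Pool.Agent.Q199.SR

open Pool.Agent.Q29.SR

universe u

noncomputable section

namespace EXT

variable {F : Type u} [Field F]

theorem shiftG_e (k : ℕ) : shiftG (e F k) = e F (k + 1) := by
  unfold e
  rw [shiftG_iota]
  congr 1
  change Finsupp.mapDomain Nat.succ (Finsupp.single k (1 : F)) = _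
  rw [Finsupp.mapDomain_single]

theorem shn_e (n : ℕ) : ∀ k : ℕ, shn F n (e F k) = e F (k + n) := by
  induction n with
  | zero => intro k; rfl
  | succ n ih =>
    intro k
    change shn F n (shiftG (e F k)) = _
    rw [shiftG_e, ih]
    congr 1
    omega

theorem shn_succ (n : ℕ) (g : Gr F) : shn F n (shn F 1 g) = shn F (n + 1) g := rfl

/-- no odd variable -/
def zeroExt (C : SuperAlg F) : OddExt C C 0 where
  i := LinearMap.id
  j := fun _ => 0
  Φ := LinearMap.id
  i_mul := fun _ _ => rfl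
  i_mem := fun _ _ h => h
  j_mem := fun k hk => absurd hk (Nat.not_lt_zero k)
  Φ_i := fun _ _ => rfl
  Φ_j := fun k hk => absurd hk (Nat.not_lt_zero k)
  Φ_inj := fun _ _ h => h
  Φ_mem := fun _ h => h
  Φ_mul := fun _ _ _ _ => rfl

/-- one more odd variable -/
def succExt {C D D' : SuperAlg F} {N : ℕ} (O : OddExt C D N) (O1 : OddExt D D' 1) :
    OddExt C D' (N + 1) where
  i := O1.i ∘ₗ O.i
  j := fun k => if k < N then O1.i ∘ₗ O.j k else O1.j 0 ∘ₗ O.i
  Φ := O.Φ ∘ₗ O1.Φ
  i_mul := fun x y => by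
    rw [LinearMap.comp_apply, LinearMap.comp_apply, LinearMap.comp_apply, O.i_mul, O1.i_mul]
  i_mem := fun p x hx => O1.i_mem p _ (O.i_mem p x hx)
  j_mem := fun k hk p x hx => by
    by_cases h : k < N
    · rw [if_pos h]
      exact O1.i_mem _ _ (O.j_mem k h p x hx)
    · rw [if_neg h]
      exact O1.j_mem 0 Nat.one_pos p _ (O.i_mem p x hx)
  Φ_i := fun g x => by
    rw [LinearMap.comp_apply, LinearMap.comp_apply, O1.Φ_i, O.Φ_i, shn_succ]
  Φ_j := fun k hk g x => by
    by_cases h : k < N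
    · rw [if_pos h, LinearMap.comp_apply, LinearMap.comp_apply, O1.Φ_i, O.Φ_j k h, shn_succ]
    · rw [if_neg h, LinearMap.comp_apply, LinearMap.comp_apply, O1.Φ_j 0 Nat.one_pos, O.Φ_i,
        map_mul, shn_succ, shn_e]
      have : 0 + N = k := by omega
      rw [this]
  Φ_inj := fun x y h => O1.Φ_inj (O.Φ_inj h)
  Φ_mem := fun x hx => O.Φ_mem _ (O1.Φ_mem x hx)
  Φ_mul := fun x hx y hy => by
    rw [LinearMap.comp_apply, LinearMap.comp_apply, LinearMap.comp_apply, O1.Φ_mul x hx y hy,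
      O.Φ_mul _ (O1.Φ_mem x hx) _ (O1.Φ_mem y hy)]

end EXT

theorem t_EXT (h : S_ONE.{u}) : S_EXT.{u} := by
  intro F _ _ C N
  induction N with
  | zero => exact ⟨C, ⟨EXT.zeroExt C⟩⟩
  | succ N ih =>
    obtain ⟨D, ⟨O⟩⟩ := ih
    obtain ⟨D', ⟨O1⟩⟩ := h F D
    exact ⟨D', ⟨EXT.succExt O O1⟩⟩

end

end Pool.Agent.Q199.SR
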