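import Pool.Agent.Q199.SR.Stm

/-! Project SR, job FIL (helper21): the ideal generated by a nilpotent ideal of the even part is
nilpotent. -/

open TensorProduct

namespace Pool.Agent.Q199.SR

open Pool.Agent.Q29.SR

universe u

noncomputable section

namespace FIL

section core

variable {K U : Type u} [Field K] [Ring U] [Algebra K U]

/-- paths from `a` to `b` with at least `i` factors in `J` at level `0` -/
def P (G : ZMod 2 → Submodule K U) (J : Submodule K U) (i : ℕ) (a b : ZMod 2) : Submodule K U :=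
  if i = 0 then G (a + b) else G a * J ^ i * G b

variable {G : ZMod 2 → Submodule K U} {J : Submodule K U}

lemma zadd (a b : ZMod 2) : a + b + b = a := by revert a b; decide

lemma zadd' (a b c : ZMod 2) : a + b + (b + c) = a + c := by revert a b c; decide

lemma zadd'' (b c : ZMod 2) : b + (b + c) = c := by revert b c; decide

lemma zz (b : ZMod 2) : b + b = 0 := by revert b; decide

lemma pow_mul_G (hJ : J * G 0 ≤ J) {i : ℕ} (hi : i ≠ 0) : J ^ i * G 0 ≤ J ^ i := by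
  obtain ⟨n, rfl⟩ := Nat.exists_eq_succ_of_ne_zero hi
  rw [pow_succ, mul_assoc]
  exact mul_le_mul' le_rfl hJ

lemma P_mul (hG : ∀ a b, G a * G b ≤ G (a + b)) (hJ : J * G 0 ≤ J) (i j : ℕ) (a b c : ZMod 2) :
    P G J i a b * P G J j b c ≤ P G J (i + j) a c := by
  unfold P
  by_cases hi : i = 0
  · by_cases hj : j = 0
    · rw [if_pos hi, if_pos hj, if_pos (by omega)]
      refine (hG _ _).trans ?_
      rw [zadd']
    · rw [if_pos hi, if_neg hj, if_neg (by omega), hi, zero_add, mul_assoc, mul_assoc, ← mul_assoc]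
      refine mul_le_mul' ((hG _ _).trans ?_) le_rfl
      rw [zadd]
  · by_cases hj : j = 0
    · rw [if_neg hi, if_pos hj, if_neg (by omega), hj, add_zero, mul_assoc]
      refine mul_le_mul' le_rfl ((hG _ _).trans ?_)
      rw [zadd'']
    · rw [if_neg hi, if_neg hj, if_neg (by omega)]
      calc G a * J ^ i * G b * (G b * J ^ j * G c)
          = G a * (J ^ i * (G b * G b)) * (J ^ j * G c) := by simp only [mul_assoc]
        _ ≤ G a * (J ^ i * G 0) * (J ^ j * G c) := by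
            refine mul_le_mul' (mul_le_mul' le_rfl (mul_le_mul' le_rfl ?_)) le_rfl
            refine (hG b b).trans ?_
            rw [zz]
        _ ≤ G a * J ^ i * (J ^ j * G c) :=
            mul_le_mul' (mul_le_mul' le_rfl (pow_mul_G hJ hi)) le_rfl
        _ = G a * J ^ (i + j) * G c := by
            rw [pow_add]; simp only [mul_assoc]

/-- paths from `a` to `b` with at least `d` factors in `J` -/
def V (G : ZMod 2 → Submodule K U) (J : Submodule K U) (d : ℕ) (a b : ZMod 2) : Submodule K U :=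
  ⨆ (i : ℕ) (j : ℕ) (_ : i + j = d), P G J i a b ⊓ P G J j (a + 1) (b + 1)

lemma le_V (d i j : ℕ) (h : i + j = d) (a b : ZMod 2) :
    P G J i a b ⊓ P G J j (a + 1) (b + 1) ≤ V G J d a b :=
  le_iSup_of_le i (le_iSup_of_le j (le_iSup_of_le h le_rfl))

lemma inf_mul_inf_le (A B C D : Submodule K U) : (A ⊓ B) * (C ⊓ D) ≤ (A * C) ⊓ (B * D) :=
  le_inf (mul_le_mul' inf_le_left inf_le_left) (mul_le_mul' inf_le_right inf_le_right)

lemma V_mul (hG : ∀ a b, G a * G b ≤ G (a + b)) (hJ : J * G 0 ≤ J) (d e : ℕ) (a b c : ZMod 2) :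
    V G J d a b * V G J e b c ≤ V G J (d + e) a c := by
  rw [V, V]
  simp only [Submodule.iSup_mul, Submodule.mul_iSup]
  refine iSup_le fun i => iSup_le fun j => iSup_le fun h => iSup_le fun i' => iSup_le fun j' =>
    iSup_le fun h' => ?_
  refine (inf_mul_inf_le _ _ _ _).trans ((inf_le_inf (P_mul hG hJ _ _ _ _ _)
    (P_mul hG hJ _ _ _ _ _)).trans (le_V _ _ _ (by omega) _ _))

/-- the filtration -/
def W' (G : ZMod 2 → Submodule K U) (J : Submodule K U) (d : ℕ) : Submodule K U :=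
  (V G J d 0 0 ⊓ V G J d 1 1) ⊔ (V G J d 0 1 ⊓ V G J d 1 0)

lemma inf_mul_inf_le' (A B C D : Submodule K U) : (A ⊓ B) * (C ⊓ D) ≤ (A * D) ⊓ (B * C) :=
  le_inf (mul_le_mul' inf_le_left inf_le_right) (mul_le_mul' inf_le_right inf_le_left)

lemma W'_mul (hG : ∀ a b, G a * G b ≤ G (a + b)) (hJ : J * G 0 ≤ J) (d e : ℕ) :
    W' G J d * W' G J e ≤ W' G J (d + e) := by
  have h := V_mul (G := G) (J := J) hG hJ d e
  unfold W'
  rw [Submodule.mul_sup, Submodule.sup_mul, Submodule.sup_mul]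
  refine sup_le (sup_le ?_ ?_) (sup_le ?_ ?_)
  · exact ((inf_mul_inf_le _ _ _ _).trans (inf_le_inf (h 0 0 0) (h 1 1 1))).trans le_sup_left
  · exact ((inf_mul_inf_le' _ _ _ _).trans (inf_le_inf (h 0 1 1) (h 1 0 0))).trans le_sup_right
  · exact ((inf_mul_inf_le _ _ _ _).trans (inf_le_inf (h 0 0 1) (h 1 1 0))).trans le_sup_right
  · exact ((inf_mul_inf_le' _ _ _ _).trans (inf_le_inf (h 0 1 0) (h 1 0 1))).trans le_sup_left

lemma P_bot {k i : ℕ} (hk : J ^ k = ⊥) (hk0 : k ≠ 0) (hi : k ≤ i) (a b : ZMod 2) :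
    P G J i a b = ⊥ := by
  unfold P
  rw [if_neg (by omega)]
  have : J ^ i = ⊥ := by
    obtain ⟨m, rfl⟩ := Nat.exists_eq_add_of_le hi
    rw [pow_add, hk, Submodule.bot_mul]
  rw [this, Submodule.mul_bot, Submodule.bot_mul]

lemma V_bot {k d : ℕ} (hk : J ^ k = ⊥) (hk0 : k ≠ 0) (hd : k + k ≤ d) (a b : ZMod 2) :
    V G J d a b = ⊥ := by
  rw [eq_bot_iff, V]
  refine iSup_le fun i => iSup_le fun j => iSup_le fun h => ?_
  rcases Nat.lt_or_ge i k with h1 | h1
  · have : P G J j (a + 1) (b + 1) = ⊥ := P_bot hk hk0 (by omega) _ _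
    rw [this, inf_bot_eq]
  · have : P G J i a b = ⊥ := P_bot hk hk0 h1 _ _
    rw [this, bot_inf_eq]

lemma W'_bot {k d : ℕ} (hk : J ^ k = ⊥) (hk0 : k ≠ 0) (hd : k + k ≤ d) : W' G J d = ⊥ := by
  unfold W'
  rw [V_bot hk hk0 hd, V_bot hk hk0 hd, V_bot hk hk0 hd, V_bot hk hk0 hd, inf_bot_eq, sup_bot_eq]

lemma V_zero (a b : ZMod 2) : G (a + b) ≤ V G J 0 a b := by
  refine le_trans (le_inf ?_ ?_) (le_V 0 0 0 rfl a b)
  · rw [P, if_pos rfl]
  · rw [P, if_pos rfl]
    have : a + 1 + (b + 1) = a + b := by revert a b; decide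
    rw [this]

lemma W'_zero : G 0 ⊔ G 1 ≤ W' G J 0 := by
  refine sup_le (le_trans (le_inf ?_ ?_) le_sup_left) (le_trans (le_inf ?_ ?_) le_sup_right)
  · exact V_zero 0 0
  · exact V_zero 1 1
  · exact V_zero 0 1
  · exact V_zero 1 0

lemma J_le_P (h1 : 1 ≤ G 0) : J ≤ P G J 1 0 0 := by
  rw [P, if_neg one_ne_zero, pow_one]
  calc J = 1 * J * 1 := by rw [one_mul, mul_one]
    _ ≤ G 0 * J * G 0 := mul_le_mul' (mul_le_mul' h1 le_rfl) h1

lemma W'_one (h1 : 1 ≤ G 0) (hJG : J ≤ G 0) : J ≤ W' G J 1 := by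
  refine le_trans (le_inf ?_ ?_) le_sup_left
  · refine le_trans (le_inf (J_le_P h1) ?_) (le_V 1 1 0 rfl 0 0)
    rw [P, if_pos rfl]
    exact hJG
  · refine le_trans (le_inf ?_ ?_) (le_V 1 0 1 rfl 1 1)
    · rw [P, if_pos rfl]
      exact hJG
    · exact J_le_P h1

end core

section transport

variable {K C : Type u} [Field K] [NonUnitalRing C] [Module K C] [SMulCommClass K C C]
  [IsScalarTower K C C]

/-- the inclusion in the unitization -/
def ir : C →ₗ[K] Unitization K C := Unitization.inrHom K K C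

lemma ir_apply (x : C) : (ir x : Unitization K C) = (x : Unitization K C) := rfl

lemma ir_inj : Function.Injective (ir : C →ₗ[K] Unitization K C) := Unitization.inr_injective

lemma map_mul_le {A B D : Submodule K C} (h : ∀ x ∈ A, ∀ y ∈ B, x * y ∈ D) :
    A.map ir * B.map (ir : C →ₗ[K] Unitization K C) ≤ D.map ir := by
  rw [Submodule.mul_le]
  rintro _ ⟨x, hx, rfl⟩ _ ⟨y, hy, rfl⟩
  exact ⟨x * y, h x hx y hy, by simp only [ir_apply, Unitization.inr_mul]⟩

lemma pow_le_map_pw (J : Submodule K C) (n : ℕ) :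
    (J.map (ir : C →ₗ[K] Unitization K C)) ^ (n + 1) ≤ (pw J n).map ir := by
  induction n with
  | zero => rw [zero_add, pow_one]; exact le_rfl
  | succ n ih =>
    rw [pow_succ']
    refine (mul_le_mul' le_rfl ih).trans (map_mul_le ?_)
    intro x hx y hy
    exact Submodule.subset_span ⟨x, hx, y, hy, rfl⟩

theorem fil_ring (C₀ C₁ J : Submodule K C) (hc : ∀ x : C, x ∈ C₀ ⊔ C₁)
    (h00 : ∀ x ∈ C₀, ∀ y ∈ C₀, x * y ∈ C₀) (h01 : ∀ x ∈ C₀, ∀ y ∈ C₁, x * y ∈ C₁)
    (h10 : ∀ x ∈ C₁, ∀ y ∈ C₀, x * y ∈ C₁) (h11 : ∀ x ∈ C₁, ∀ y ∈ C₁, x * y ∈ C₀)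
    (hJ : J ≤ C₀) (hJ2 : ∀ x ∈ J, ∀ y ∈ C₀, x * y ∈ J) (n : ℕ) (hn : pw J n = ⊥) :
    ∃ (N : ℕ) (W : ℕ → Submodule K C), W 0 = ⊤ ∧ (∀ d, N ≤ d → W d = ⊥) ∧
      (∀ a b, ∀ x ∈ W a, ∀ y ∈ W b, x * y ∈ W (a + b)) ∧ J ≤ W 1 := by
  let G : ZMod 2 → Submodule K (Unitization K C) :=
    fun a => if a = 0 then 1 ⊔ C₀.map ir else C₁.map ir
  have hG0 : G 0 = 1 ⊔ C₀.map ir := rfl
  have hG1 : G 1 = C₁.map ir := rfl
  have hone : (1 : Submodule K (Unitization K C)) ≤ G 0 := by rw [hG0]; exact le_sup_left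
  have m00 : G 0 * G 0 ≤ G 0 := by
    rw [hG0, Submodule.mul_sup, mul_one, Submodule.sup_mul, one_mul]
    exact sup_le le_rfl (sup_le le_sup_right ((map_mul_le h00).trans le_sup_right))
  have m01 : G 0 * G 1 ≤ G 1 := by
    rw [hG0, hG1, Submodule.sup_mul, one_mul]
    exact sup_le le_rfl (map_mul_le h01)
  have m10 : G 1 * G 0 ≤ G 1 := by
    rw [hG0, hG1, Submodule.mul_sup, mul_one]
    exact sup_le le_rfl (map_mul_le h10)
  have m11 : G 1 * G 1 ≤ G 0 := by
    rw [hG0, hG1]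
    exact (map_mul_le h11).trans le_sup_right
  have hG : ∀ a b, G a * G b ≤ G (a + b) := by
    intro a b
    have h2 : ∀ c : ZMod 2, c = 0 ∨ c = 1 := by decide
    rcases h2 a with rfl | rfl <;> rcases h2 b with rfl | rfl
    · exact m00
    · exact m01
    · exact m10
    · exact m11
  have hJG : J.map ir * G 0 ≤ J.map ir := by
    rw [hG0, Submodule.mul_sup, mul_one]
    exact sup_le le_rfl (map_mul_le hJ2)
  have hJ0 : J.map ir ≤ G 0 := by
    rw [hG0]
    exact (Submodule.map_mono hJ).trans le_sup_right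
  have hk : (J.map (ir : C →ₗ[K] Unitization K C)) ^ (n + 1) = ⊥ := by
    rw [eq_bot_iff]
    refine (pow_le_map_pw J n).trans ?_
    rw [hn, Submodule.map_bot]
  refine ⟨(n + 1) + (n + 1), fun d => (W' G (J.map ir) d).comap ir, ?_, ?_, ?_, ?_⟩
  · rw [eq_top_iff]
    intro x _
    show ir x ∈ W' G (J.map ir) 0
    refine W'_zero ?_
    obtain ⟨y, hy, z, hz, rfl⟩ := Submodule.mem_sup.1 (hc x)
    rw [map_add]
    refine Submodule.add_mem _ (Submodule.mem_sup_left ?_) (Submodule.mem_sup_right ?_)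
    · rw [hG0]
      exact Submodule.mem_sup_right ⟨y, hy, rfl⟩
    · rw [hG1]
      exact ⟨z, hz, rfl⟩
  · intro d hd
    show (W' G (J.map ir) d).comap ir = ⊥
    rw [W'_bot hk (Nat.succ_ne_zero n) hd, Submodule.comap_bot, LinearMap.ker_eq_bot]
    exact ir_inj
  · intro a b x hx y hy
    show ir (x * y) ∈ W' G (J.map ir) (a + b)
    have : (ir (x * y) : Unitization K C) = ir x * ir y := by
      simp only [ir_apply, Unitization.inr_mul]
    rw [this]
    exact W'_mul hG hJG a b (Submodule.mul_mem_mul hx hy)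
  · intro x hx
    show ir x ∈ W' G (J.map ir) 1
    exact W'_one hone hJ0 ⟨x, hx, rfl⟩

end transport

end FIL

theorem t_FIL : S_FIL := by
  intro K _ C _ _ _ _ hassoc C₀ C₁ hc h00 h01 h10 h11 J hJ _
  obtain ⟨hJ0, hJ2, n, hn⟩ := hJ
  let _ : NonUnitalRing C :=
    { (inferInstance : NonUnitalNonAssocRing C) with mul_assoc := hassoc }
  exact FIL.fil_ring C₀ C₁ J (fun x => hc.sup_eq_top.symm ▸ Submodule.mem_top) h00 h01 h10 h11 hJ0
    (fun x hx y hy => (hJ2 x hx y hy).1) n hn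

end

end Pool.Agent.Q199.SR
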