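import Pool.Agent.Q199.SR.Core

/-!
Assembly, part 2: base change to the algebraic closure.
-/

open TensorProduct

namespace Pool.Agent.Q199.SR

open Pool.Agent.Q29.SR

universe u

noncomputable section

namespace Fin

theorem mem_baseChange {F : Type u} [Field F] {K : Type u} [Field K] [Algebra F K]
    {V : Type u} [AddCommGroup V] [Module F V] (P : Submodule F V) (x : K ⊗[F] V) :
    x ∈ P.baseChange K ↔ x ∈ LinearMap.range (LinearMap.lTensor K P.subtype) := Iff.rfl

theorem tens_assoc {F : Type u} [Field F] {K : Type u} [Field K] [Algebra F K] {B : SuperAlg F}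
    (hassoc : ∀ x y z : B.carrier, x * y * z = x * (y * z)) (x y z : K ⊗[F] B.carrier) :
    x * y * z = x * (y * z) := by
  induction x with
  | zero => simp only [zero_mul]
  | add x x' h h' => simp only [add_mul, h, h']
  | tmul a x =>
    induction y with
    | zero => simp only [zero_mul, mul_zero]
    | add y y' h h' => simp only [add_mul, mul_add, h, h']
    | tmul b y =>
      induction z with
      | zero => simp only [mul_zero]
      | add z z' h h' => simp only [mul_add, h, h']
      | tmul c z =>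
        simp only [Algebra.TensorProduct.tmul_mul_tmul, mul_assoc, hassoc]

theorem main (hSE : S_SE.{u}) (hEXT : S_EXT.{u}) (hSUB : S_SUB.{u}) (hBC : S_BC.{u})
    (hSTR : S_STR.{u}) (hRQ : S_RQ.{u}) (F : Type u) [Field F] [CharZero F] (B : SuperAlg F)
    [FiniteDimensional F B.carrier] (hassoc : ∀ x y z : B.carrier, x * y * z = x * (y * z)) :
    ∃ (s : ℕ) (A : SuperAlg F), A.GeneratedBy 2 s ∧
      ∀ f, B.envelope.Satisfies f ↔ A.envelope.Satisfies f := by
  let K := AlgebraicClosure F
  obtain ⟨C, φ, φm, φp, φs⟩ := hBC F K B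
  let T := K ⊗[F] B.carrier
  have hTass : ∀ x y z : T, x * y * z = x * (y * z) := tens_assoc hassoc
  let Tp : ZMod 2 → Submodule K T := fun p => (B.part p).baseChange K
  have hTp : ∀ p x, x ∈ C.part p ↔ φ x ∈ Tp p := φp
  have hTp' : ∀ p y, y ∈ Tp p ↔ φ.symm y ∈ C.part p := by
    intro p y
    rw [hTp, LinearEquiv.apply_symm_apply]
  have hmul : ∀ p q x y, x ∈ Tp p → y ∈ Tp q → x * y ∈ Tp (p + q) := by
    intro p q x y hx hy
    rw [hTp'] at hx hy ⊢
    have h := C.mul_mem hx hy
    have e : φ.symm (x * y) = φ.symm x * φ.symm y := by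
      apply φ.injective
      rw [φm]
      simp
    rwa [e]
  have hcompl : IsCompl (Tp 0) (Tp 1) := by
    have hC := C.isCompl
    constructor
    · rw [Submodule.disjoint_def]
      intro x h0 h1
      rw [hTp'] at h0 h1
      have := (Submodule.disjoint_def.1 hC.disjoint) _ h0 h1
      rwa [LinearEquiv.map_eq_zero_iff] at this
    · rw [Submodule.codisjoint_iff_exists_add_eq]
      intro z
      obtain ⟨a, b, ha, hb, hab⟩ := Submodule.codisjoint_iff_exists_add_eq.1 hC.codisjoint
        (φ.symm z)
      refine ⟨φ a, φ b, (hTp 0 a).1 ha, (hTp 1 b).1 hb, ?_⟩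
      rw [← map_add, hab, LinearEquiv.apply_symm_apply]
  obtain ⟨u, hu, v, hv, N, W, hW0, hWN, hWm, hgen⟩ := hSTR K T hTass (Tp 0) (Tp 1) hcompl
    (fun x hx y hy => by simpa using hmul 0 0 x y hx hy)
    (fun x hx y hy => by simpa using hmul 0 1 x y hx hy)
    (fun x hx y hy => by simpa using hmul 1 0 x y hx hy)
    (fun x hx y hy => by
      have := hmul 1 1 x y hx hy
      rwa [show (1 : ZMod 2) + 1 = 0 from rfl] at this)
  -- spanning families
  have hfg : ∀ P : Submodule K T, ∃ (n : ℕ) (b : Fin n → T), Submodule.span K (Set.range b) = P :=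
    fun P => Submodule.fg_iff_exists_fin_generating_family.1 (IsNoetherian.noetherian P)
  obtain ⟨m, b, hb⟩ := hfg (Tp 1)
  obtain ⟨l, c, hc⟩ := hfg (W 1 ⊓ Tp 0)
  -- the action of `K`
  let ρ : K →ₐ[F] Module.End F C.carrier :=
    ((φ.symm.conjAlgEquiv F).toAlgHom).comp (Algebra.lsmul F F T)
  have hρ : ∀ κ x, ρ κ x = φ.symm (κ • φ x) := fun κ x => rfl
  have hφρ : ∀ κ x, φ (ρ κ x) = κ • φ x := fun κ x => by
    rw [hρ, LinearEquiv.apply_symm_apply]
  have hsm : ∀ (κ : K) (y : T), φ.symm (κ • y) = ρ κ (φ.symm y) := fun κ y => by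
    rw [hρ, LinearEquiv.apply_symm_apply]
  have hspan : ∀ (G : Set T) (y : T), y ∈ Submodule.span K G →
      φ.symm y ∈ Submodule.span F {x | ∃ κ : K, ∃ g ∈ G, x = ρ κ (φ.symm g)} := by
    intro G y hy
    induction hy using Submodule.span_induction with
    | zero => rw [map_zero]; exact Submodule.zero_mem _
    | add x y _ _ h h' => rw [map_add]; exact Submodule.add_mem _ h h'
    | smul a x _ h =>
      rw [hsm]
      generalize φ.symm x = z at h
      induction h using Submodule.span_induction with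
      | zero => rw [map_zero]; exact Submodule.zero_mem _
      | add x y _ _ h h' => rw [map_add]; exact Submodule.add_mem _ h h'
      | smul b x _ h => rw [map_smul]; exact Submodule.smul_mem _ _ h
      | mem x hx =>
        obtain ⟨κ, g, hg, rfl⟩ := hx
        refine Submodule.subset_span ⟨a * κ, g, hg, ?_⟩
        rw [map_mul]
        rfl
    | mem x hx =>
      refine Submodule.subset_span ⟨1, x, hx, ?_⟩
      rw [map_one]
      rfl
  let W' : ℕ → Submodule F C.carrier := fun d =>
    ((W d).restrictScalars F).comap φ.toLinearMap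
  have hW' : ∀ d x, x ∈ W' d ↔ φ x ∈ W d := fun d x => Iff.rfl
  have hcl : ∀ p ∈ Subsemigroup.closure ({u, v} : Set T),
      φ.symm p ∈ Subsemigroup.closure {φ.symm u, φ.symm v} := by
    intro p hp
    induction hp using Subsemigroup.closure_induction with
    | mem x hx =>
      apply Subsemigroup.subset_closure
      rcases hx with rfl | hx
      · exact Or.inl rfl
      · rw [Set.mem_singleton_iff] at hx
        subst hx
        exact Or.inr rfl
    | mul x y _ _ hx hy =>
      have e : φ.symm (x * y) = φ.symm x * φ.symm y := by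
        apply φ.injective
        rw [φm]
        simp
      rw [e]
      exact mul_mem hx hy
  have hbm : ∀ k, b k ∈ Tp 1 := fun k => hb ▸ Submodule.subset_span ⟨k, rfl⟩
  have hcm : ∀ k, c k ∈ W 1 ⊓ Tp 0 := fun k => hc ▸ Submodule.subset_span ⟨k, rfl⟩
  obtain ⟨s, A, hA, hAf⟩ := Core.core hSE hEXT hSUB hRQ C ρ
    (fun κ x y => by
      apply φ.injective
      rw [hφρ, φm, φm, hφρ, smul_mul_assoc])
    (fun κ x y => by
      apply φ.injective
      rw [hφρ, φm, φm, hφρ, mul_smul_comm])
    (φ.symm u) (φ.symm v) ((hTp' 0 u).1 hu) ((hTp' 0 v).1 hv) m l (fun k => φ.symm (b k))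
    (fun k => (hTp' 1 _).1 (hbm k)) (fun k => φ.symm (c k))
    (fun k => (hTp' 0 _).1 (hcm k).2) N W'
    (by
      rw [eq_top_iff]
      intro x _
      rw [hW', hW0]
      exact Submodule.mem_top)
    (fun a b x hx y hy => by
      rw [hW'] at hx hy ⊢
      rw [φm]
      exact hWm a b _ hx _ hy)
    (fun d hd => by
      rw [eq_bot_iff]
      intro x hx
      rw [hW', hWN d hd, Submodule.mem_bot, LinearEquiv.map_eq_zero_iff] at hx
      rw [hx]
      exact Submodule.zero_mem _)
    (fun κ k => by
      rw [hW', hφρ, LinearEquiv.apply_symm_apply]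
      exact Submodule.smul_mem _ _ (hcm k).1)
    (fun x hx => by
      obtain ⟨y', hy', y'', hy'', hxy⟩ := hgen (φ x) ((hTp 0 x).1 hx)
      refine ⟨φ.symm y', ?_, φ.symm y'', ?_, ?_⟩
      · refine Submodule.span_mono ?_ (hspan _ y' hy')
        rintro _ ⟨κ, g, hg, rfl⟩
        exact ⟨κ, φ.symm g, hcl g hg, rfl⟩
      · rw [← hc] at hy''
        refine Submodule.span_mono ?_ (hspan _ y'' hy'')
        rintro _ ⟨κ, _, ⟨k, rfl⟩, rfl⟩
        exact ⟨κ, k, rfl⟩
      · rw [← map_add, ← hxy, LinearEquiv.symm_apply_apply])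
    (fun x hx => by
      have hx' := (hTp 1 x).1 hx
      rw [← hb] at hx'
      have := hspan _ _ hx'
      rw [LinearEquiv.symm_apply_apply] at this
      refine Submodule.span_mono ?_ this
      rintro _ ⟨κ, _, ⟨k, rfl⟩, rfl⟩
      exact ⟨κ, k, rfl⟩)
  exact ⟨s, A, hA, fun f => (φs f).trans (hAf f)⟩

end Fin

end

end Pool.Agent.Q199.SR
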