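import Pool.Agent.Q199.SR.Stm

/-!
Lemma job SR-ONE (helper83 for helper199): one odd variable.
-/

open TensorProduct

namespace Pool.Agent.Q199.SR

open Pool.Agent.Q29.SR

universe u

noncomputable section

namespace ONE

variable {F : Type u} [Field F]

/-- The parity automorphism. -/
def par (C : SuperAlg F) : C.carrier →ₗ[F] C.carrier :=
  LinearMap.ofIsCompl C.isCompl (C.part 0).subtype (-(C.part 1).subtype)

theorem par_even (C : SuperAlg F) {a : C.carrier} (h : a ∈ C.part 0) : par C a = a :=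
  LinearMap.ofIsCompl_apply_left C.isCompl ⟨a, h⟩

theorem par_odd (C : SuperAlg F) {a : C.carrier} (h : a ∈ C.part 1) : par C a = -a :=
  LinearMap.ofIsCompl_apply_right C.isCompl ⟨a, h⟩

theorem zmod2 (p : ZMod 2) : p = 0 ∨ p = 1 := by
  fin_cases p
  · exact Or.inl rfl
  · exact Or.inr rfl

theorem par_mem (C : SuperAlg F) {p : ZMod 2} {a : C.carrier} (h : a ∈ C.part p) :
    par C a ∈ C.part p := by
  rcases zmod2 p with rfl | rfl
  · rw [par_even C h]; exact h
  · rw [par_odd C h]; exact Submodule.neg_mem _ h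

/-- The underlying space of `C[ξ]`. -/
def DD (C : SuperAlg F) : Type u := C.carrier × C.carrier

instance (C : SuperAlg F) : AddCommGroup (DD C) :=
  inferInstanceAs (AddCommGroup (C.carrier × C.carrier))

instance (C : SuperAlg F) : Mul (DD C) :=
  ⟨fun x y => (x.1 * y.1, x.2 * y.1 + par C x.1 * y.2)⟩

/-- Pairs. -/
def mk {C : SuperAlg F} (a b : C.carrier) : DD C := (a, b)

theorem mul_fst {C : SuperAlg F} (x y : DD C) : (x * y).1 = x.1 * y.1 := rfl
theorem mul_snd {C : SuperAlg F} (x y : DD C) : (x * y).2 = x.2 * y.1 + par C x.1 * y.2 := rfl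

theorem add_fst {C : SuperAlg F} (x y : DD C) : (x + y).1 = x.1 + y.1 := rfl
theorem add_snd {C : SuperAlg F} (x y : DD C) : (x + y).2 = x.2 + y.2 := rfl
theorem zero_fst {C : SuperAlg F} : (0 : DD C).1 = 0 := rfl
theorem zero_snd {C : SuperAlg F} : (0 : DD C).2 = 0 := rfl
theorem ext' {C : SuperAlg F} {x y : DD C} (h1 : x.1 = y.1) (h2 : x.2 = y.2) : x = y :=
  Prod.ext h1 h2

instance (C : SuperAlg F) : NonUnitalNonAssocRing (DD C) :=
  { (inferInstance : AddCommGroup (DD C)), (inferInstance : Mul (DD C)) with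
    left_distrib := fun x y z => by
      refine ext' ?_ ?_
      · simp only [mul_fst, add_fst, mul_add]
      · simp only [mul_snd, add_fst, add_snd, mul_add]
        abel
    right_distrib := fun x y z => by
      refine ext' ?_ ?_
      · simp only [mul_fst, add_fst, add_mul]
      · simp only [mul_snd, add_fst, add_snd, add_mul, map_add]
        abel
    zero_mul := fun x => by
      refine ext' ?_ ?_
      · simp only [mul_fst, zero_fst, zero_mul]
      · simp only [mul_snd, zero_fst, zero_snd, zero_mul, map_zero, add_zero]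
    mul_zero := fun x => by
      refine ext' ?_ ?_
      · simp only [mul_fst, zero_fst, mul_zero]
      · simp only [mul_snd, zero_fst, zero_snd, mul_zero, add_zero] }

instance (C : SuperAlg F) : Module F (DD C) :=
  inferInstanceAs (Module F (C.carrier × C.carrier))

theorem smul_fst {C : SuperAlg F} (c : F) (x : DD C) : (c • x).1 = c • x.1 := rfl
theorem smul_snd {C : SuperAlg F} (c : F) (x : DD C) : (c • x).2 = c • x.2 := rfl

instance (C : SuperAlg F) : SMulCommClass F (DD C) (DD C) :=
  ⟨fun c x y => by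
    change c • (x * y) = x * (c • y)
    refine ext' ?_ ?_
    · simp only [mul_fst, smul_fst, mul_smul_comm]
    · simp only [mul_snd, smul_fst, smul_snd, mul_smul_comm, smul_add]⟩

instance (C : SuperAlg F) : IsScalarTower F (DD C) (DD C) :=
  ⟨fun c x y => by
    change (c • x) * y = c • (x * y)
    refine ext' ?_ ?_
    · simp only [mul_fst, smul_fst, smul_mul_assoc]
    · simp only [mul_snd, smul_fst, smul_snd, smul_mul_assoc, smul_add, map_smul]⟩

/-- The two coordinates and the two embeddings. -/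
def fstL (C : SuperAlg F) : DD C →ₗ[F] C.carrier where
  toFun x := x.1
  map_add' _ _ := rfl
  map_smul' _ _ := rfl

def sndL (C : SuperAlg F) : DD C →ₗ[F] C.carrier where
  toFun x := x.2
  map_add' _ _ := rfl
  map_smul' _ _ := rfl

def inlL (C : SuperAlg F) : C.carrier →ₗ[F] DD C where
  toFun x := mk x 0
  map_add' _ _ := ext' rfl (add_zero _).symm
  map_smul' c _ := ext' rfl (smul_zero c).symm

def inrL (C : SuperAlg F) : C.carrier →ₗ[F] DD C where
  toFun x := mk 0 x
  map_add' _ _ := ext' (add_zero _).symm rfl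
  map_smul' c _ := ext' (smul_zero c).symm rfl

/-- The parts. -/
def prt (C : SuperAlg F) (p : ZMod 2) : Submodule F (DD C) :=
  (C.part p).comap (fstL C) ⊓ (C.part (p + 1)).comap (sndL C)

theorem mem_prt {C : SuperAlg F} {p : ZMod 2} {x : DD C} :
    x ∈ prt C p ↔ x.1 ∈ C.part p ∧ x.2 ∈ C.part (p + 1) := Iff.rfl

theorem prt_isCompl (C : SuperAlg F) : IsCompl (prt C 0) (prt C 1) := by
  have h11 : (1 : ZMod 2) + 1 = 0 := rfl
  have h01 : (0 : ZMod 2) + 1 = 1 := rfl
  constructor
  · rw [Submodule.disjoint_def]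
    intro x h0 h1
    rw [mem_prt] at h0 h1
    rw [h01] at h0
    rw [h11] at h1
    have hd := Submodule.disjoint_def.1 C.isCompl.disjoint
    exact ext' (hd _ h0.1 h1.1) (hd _ h1.2 h0.2)
  · rw [codisjoint_iff, eq_top_iff]
    intro x _
    have ht : ∀ a : C.carrier, ∃ y ∈ C.part 0, ∃ z ∈ C.part 1, y + z = a := by
      intro a
      have : a ∈ C.part 0 ⊔ C.part 1 := by
        rw [C.isCompl.sup_eq_top]
        exact Submodule.mem_top
      exact Submodule.mem_sup.1 this
    obtain ⟨a0, ha0, a1, ha1, ha⟩ := ht x.1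
    obtain ⟨b0, hb0, b1, hb1, hb⟩ := ht x.2
    refine Submodule.mem_sup.2 ⟨mk a0 b1, ?_, mk a1 b0, ?_, ?_⟩
    · rw [mem_prt, h01]; exact ⟨ha0, hb1⟩
    · rw [mem_prt, h11]; exact ⟨ha1, hb0⟩
    · refine ext' ha ?_
      rw [← hb]
      exact add_comm b1 b0

theorem prt_mul {C : SuperAlg F} {i j : ZMod 2} {a b : DD C} (ha : a ∈ prt C i)
    (hb : b ∈ prt C j) : a * b ∈ prt C (i + j) := by
  rw [mem_prt] at ha hb ⊢
  rw [mul_fst, mul_snd]
  refine ⟨C.mul_mem ha.1 hb.1, ?_⟩
  refine Submodule.add_mem _ ?_ ?_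
  · have := C.mul_mem ha.2 hb.1
    have e : i + 1 + j = i + j + 1 := by ring
    rwa [e] at this
  · have := C.mul_mem (par_mem C ha.1) hb.2
    have e : i + (j + 1) = i + j + 1 := by ring
    rwa [e] at this

/-- The superalgebra `C[ξ]`. -/
def D (C : SuperAlg F) : SuperAlg F where
  toAlg := ⟨DD C⟩
  part := prt C
  isCompl := prt_isCompl C
  mul_mem := prt_mul

/-- The embedding of the envelopes. -/
def Phi (C : SuperAlg F) : Gr F ⊗[F] DD C →ₗ[F] Gr F ⊗[F] C.carrier :=
  TensorProduct.map (shiftG (F := F)).toLinearMap (fstL C) +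
    TensorProduct.map ((LinearMap.mulLeft F (e F 0)).comp (shiftG (F := F)).toLinearMap) (sndL C)

theorem Phi_tmul (C : SuperAlg F) (g : Gr F) (x : DD C) :
    Phi C (g ⊗ₜ[F] x) = shiftG g ⊗ₜ[F] x.1 + (e F 0 * shiftG g) ⊗ₜ[F] x.2 := rfl

/-- The contraction with `e_0*`. -/
def kap : Gr F →ₗ[F] Gr F :=
  CliffordAlgebra.contractLeft (Q := (0 : QuadraticForm F (ℕ →₀ F)))
      (Finsupp.lapply 0 : (ℕ →₀ F) →ₗ[F] F)

theorem kap_shift (x : Gr F) : kap (shiftG x) = 0 := contract_shift x

theorem kap_e_shift (x : Gr F) : kap (e F 0 * shiftG x) = shiftG x := by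
  have h2 := CliffordAlgebra.contractLeft_ι_mul (Q := (0 : QuadraticForm F (ℕ →₀ F)))
    (d := (Finsupp.lapply 0 : (ℕ →₀ F) →ₗ[F] F)) (Finsupp.single 0 1) (shiftG x)
  rw [contract_shift, mul_zero, sub_zero] at h2
  have h4 : (Finsupp.lapply 0 : (ℕ →₀ F) →ₗ[F] F) (Finsupp.single 0 1) = 1 := by
    simp
  rw [h4, one_smul] at h2
  exact h2

theorem sh_inj (V : Type u) [AddCommGroup V] [Module F V] :
    Function.Injective (LinearMap.rTensor V (shiftG (F := F)).toLinearMap) :=
  Module.Flat.rTensor_preserves_injective_linearMap _ shiftG_injective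

theorem Phi_inj (C : SuperAlg F) : Function.Injective (Phi C) := by
  rw [← LinearMap.ker_eq_bot, LinearMap.ker_eq_bot']
  intro t ht
  have h1 : ∀ t : Gr F ⊗[F] DD C, LinearMap.rTensor C.carrier (kap (F := F)) (Phi C t) =
      LinearMap.rTensor C.carrier (shiftG (F := F)).toLinearMap
        (LinearMap.lTensor (Gr F) (sndL C) t) := by
    intro t
    induction t using TensorProduct.induction_on with
    | zero => simp only [map_zero]
    | add x y hx hy => simp only [map_add, hx, hy]
    | tmul g x =>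
      rw [Phi_tmul, map_add, LinearMap.rTensor_tmul, LinearMap.rTensor_tmul, kap_shift,
        kap_e_shift, TensorProduct.zero_tmul, zero_add]
      rfl
  have h2 : ∀ t : Gr F ⊗[F] DD C, Phi C t =
      LinearMap.rTensor C.carrier (shiftG (F := F)).toLinearMap
        (LinearMap.lTensor (Gr F) (fstL C) t) +
      LinearMap.rTensor C.carrier ((LinearMap.mulLeft F (e F 0)).comp (shiftG (F := F)).toLinearMap)
        (LinearMap.lTensor (Gr F) (sndL C) t) := by
    intro t
    induction t using TensorProduct.induction_on with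
    | zero => simp only [map_zero, add_zero]
    | add x y hx hy =>
      simp only [map_add, hx, hy]
      abel
    | tmul g x => rfl
  have h3 : ∀ t : Gr F ⊗[F] DD C, t = LinearMap.lTensor (Gr F) (inlL C)
      (LinearMap.lTensor (Gr F) (fstL C) t) +
      LinearMap.lTensor (Gr F) (inrL C) (LinearMap.lTensor (Gr F) (sndL C) t) := by
    intro t
    induction t using TensorProduct.induction_on with
    | zero => simp only [map_zero, add_zero]
    | add x y hx hy =>
      nth_rewrite 1 [hx, hy]
      simp only [map_add]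
      abel
    | tmul g x =>
      simp only [LinearMap.lTensor_tmul]
      rw [← TensorProduct.tmul_add]
      congr 1
      exact ext' (add_zero _).symm (zero_add _).symm
  have e2 : LinearMap.lTensor (Gr F) (sndL C) t = 0 := by
    apply sh_inj C.carrier
    rw [← h1, ht, map_zero, map_zero]
  have e1 : LinearMap.lTensor (Gr F) (fstL C) t = 0 := by
    apply sh_inj C.carrier
    have := h2 t
    rw [e2, map_zero, add_zero, ht] at this
    rw [← this, map_zero]
  rw [h3 t, e1, e2, map_zero, map_zero, add_zero]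

theorem e_mem : e F 0 ∈ GrPart F 1 := CliffordAlgebra.ι_mem_evenOdd_one _ _

theorem e_shift_mem {p : ZMod 2} {g : Gr F} (hg : g ∈ GrPart F p) :
    e F 0 * shiftG g ∈ GrPart F (p + 1) := by
  have := SetLike.mul_mem_graded (A := CliffordAlgebra.evenOdd (0 : QuadraticForm F (ℕ →₀ F)))
    (e_mem (F := F)) (shiftG_mem hg)
  rwa [add_comm] at this

theorem Phi_mem (C : SuperAlg F) (x : Gr F ⊗[F] DD C) (hx : x ∈ envSpace (prt C)) :
    Phi C x ∈ envSpace C.part := by
  change x ∈ Submodule.span F _ at hx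
  induction hx using Submodule.span_induction with
  | zero => rw [map_zero]; exact Submodule.zero_mem _
  | add x x' _ _ hx hx' => rw [map_add]; exact Submodule.add_mem _ hx hx'
  | smul c x _ hx => rw [map_smul]; exact Submodule.smul_mem _ c hx
  | mem x hx =>
    obtain ⟨p, g, a, hg, ha, rfl⟩ := hx
    rw [Phi_tmul]
    refine Submodule.add_mem _ ?_ ?_
    · exact Submodule.subset_span ⟨p, _, _, shiftG_mem hg, ha.1, rfl⟩
    · exact Submodule.subset_span ⟨p + 1, _, _, e_shift_mem hg, ha.2, rfl⟩

theorem swap [CharZero F] {p : ZMod 2} {g : Gr F} (hg : g ∈ GrPart F p) (C : SuperAlg F) {a : C.carrier}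
    (ha : a ∈ C.part p) (g' : Gr F) (b : C.carrier) :
    (g * e F 0 * g') ⊗ₜ[F] (a * b) = (e F 0 * g * g') ⊗ₜ[F] (par C a * b) := by
  rcases zmod2 p with rfl | rfl
  · rw [par_even C ha, even_comm hg]
  · rw [par_odd C ha, odd_comm hg]
    have : CliffordAlgebra.involute (e F 0) = - e F 0 := CliffordAlgebra.involute_ι _
    rw [this]
    rw [neg_mul, neg_mul, TensorProduct.neg_tmul, neg_mul, TensorProduct.tmul_neg]

theorem Phi_mul_gen [CharZero F] (C : SuperAlg F) {p : ZMod 2} {g g' : Gr F} {a b : DD C}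
    (hg : g ∈ GrPart F p) (ha : a ∈ prt C p) :
    Phi C ((g ⊗ₜ[F] a) * (g' ⊗ₜ[F] b)) = Phi C (g ⊗ₜ[F] a) * Phi C (g' ⊗ₜ[F] b) := by
  rw [Algebra.TensorProduct.tmul_mul_tmul, Phi_tmul, Phi_tmul, Phi_tmul, mul_add, add_mul, add_mul]
  simp only [Algebra.TensorProduct.tmul_mul_tmul]
  have h1 : e F 0 * shiftG g * (e F 0 * shiftG g') = 0 := by
    rw [← mul_assoc, odd_mul_mul_odd e_mem, zero_mul]
  have h2 : (shiftG g * (e F 0 * shiftG g')) ⊗ₜ[F] (a.1 * b.2) =
      (e F 0 * shiftG g * shiftG g') ⊗ₜ[F] (par C a.1 * b.2) := by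
    rw [← mul_assoc]
    exact swap (shiftG_mem hg) C ha.1 _ _
  rw [h1, h2, TensorProduct.zero_tmul, add_zero, map_mul, mul_fst, mul_snd]
  rw [TensorProduct.tmul_add, ← mul_assoc]
  abel

theorem Phi_mul [CharZero F] (C : SuperAlg F) (x y : Gr F ⊗[F] DD C) (hx : x ∈ envSpace (prt C))
    (hy : y ∈ envSpace (prt C)) : Phi C (x * y) = Phi C x * Phi C y := by
  change x ∈ Submodule.span F _ at hx
  change y ∈ Submodule.span F _ at hy
  induction hx using Submodule.span_induction with
  | zero => rw [zero_mul, map_zero, zero_mul]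
  | add x x' _ _ hx hx' => rw [add_mul, map_add, map_add, add_mul, hx, hx']
  | smul c x _ hx => rw [smul_mul_assoc, map_smul, map_smul, smul_mul_assoc, hx]
  | mem x hx =>
    obtain ⟨i, g, a, hg, ha, rfl⟩ := hx
    induction hy using Submodule.span_induction with
    | zero => rw [mul_zero, map_zero, mul_zero]
    | add y y' _ _ hy hy' => rw [mul_add, map_add, map_add, mul_add, hy, hy']
    | smul c y _ hy => rw [mul_smul_comm, map_smul, map_smul, mul_smul_comm, hy]
    | mem y hy =>
      obtain ⟨j, g', a', hg', ha', rfl⟩ := hy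
      exact Phi_mul_gen C hg ha

theorem shn_one : shn F 1 = shiftG := rfl

end ONE

open ONE in
theorem t_ONE : S_ONE.{u} := by
  intro F _ _ C
  refine ⟨D C, ⟨?_⟩⟩
  exact
    { i := inlL C
      j := fun _ => inrL C
      Φ := Phi C
      i_mul := fun x y => by
        refine ext' ?_ ?_
        · rfl
        · change (0 : C.carrier) = 0 * y + par C x * 0
          rw [zero_mul, mul_zero, add_zero]
      i_mem := fun p x hx => ⟨hx, Submodule.zero_mem _⟩
      j_mem := fun k _ p x hx => by
        refine ⟨Submodule.zero_mem _, ?_⟩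
        change x ∈ C.part (p + 1 + 1)
        have e : p + 1 + 1 = p := by rcases zmod2 p with rfl | rfl <;> rfl
        rw [e]; exact hx
      Φ_i := fun g x => by
        refine (Phi_tmul C g _).trans ?_
        rw [shn_one]
        change shiftG g ⊗ₜ[F] x + (e F 0 * shiftG g) ⊗ₜ[F] (0 : C.carrier) = _
        rw [TensorProduct.tmul_zero, add_zero]
      Φ_j := fun k hk g x => by
        obtain rfl : k = 0 := by omega
        refine (Phi_tmul C g _).trans ?_
        rw [shn_one]
        change shiftG g ⊗ₜ[F] (0 : C.carrier) + (e F 0 * shiftG g) ⊗ₜ[F] x = _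
        rw [TensorProduct.tmul_zero, zero_add]
      Φ_inj := Phi_inj C
      Φ_mem := Phi_mem C
      Φ_mul := fun x hx y hy => Phi_mul C x y hx hy }

end

end Pool.Agent.Q199.SR
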