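import Pool.Agent.Q199.SR.Stm

/-!
Project SR, part RQ: the Rees type argument (helper110).
-/

open TensorProduct

namespace Pool.Agent.Q199.SR

open Pool.Agent.Q29.SR

universe u

namespace RQ

noncomputable section

theorem lift_comp {F A B : Type u} [Field F] [NonUnitalNonAssocRing A] [Module F A]
    [SMulCommClass F A A] [IsScalarTower F A A] [NonUnitalNonAssocRing B] [Module F B]
    [SMulCommClass F B B] [IsScalarTower F B B] (φ : A →ₙₐ[F] B) (v : ℕ → A) (f : NAPoly F) :
    φ (FreeNonUnitalNonAssocAlgebra.lift F v f) =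
      FreeNonUnitalNonAssocAlgebra.lift F (fun n => φ (v n)) f := by
  have h : φ.comp (FreeNonUnitalNonAssocAlgebra.lift F v) =
      FreeNonUnitalNonAssocAlgebra.lift F (fun n => φ (v n)) := by
    apply FreeNonUnitalNonAssocAlgebra.hom_ext
    intro n
    simp
  exact DFunLike.congr_fun h f

theorem lift_mem {F A : Type u} [Field F] [NonUnitalNonAssocRing A] [Module F A]
    [SMulCommClass F A A] [IsScalarTower F A A] (Q : NonUnitalSubalgebra F A) (v : ℕ → A)
    (hv : ∀ n, v n ∈ Q) (f : NAPoly F) : FreeNonUnitalNonAssocAlgebra.lift F v f ∈ Q := by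
  have h := lift_comp (NonUnitalSubalgebraClass.subtype Q) (fun n => (⟨v n, hv n⟩ : Q)) f
  change _ = FreeNonUnitalNonAssocAlgebra.lift F v f at h
  rw [← h]
  exact (FreeNonUnitalNonAssocAlgebra.lift F (fun n => (⟨v n, hv n⟩ : Q)) f).2

variable {F : Type u} [Field F] {C : Type u} [NonUnitalNonAssocRing C]
  [Module F C] [SMulCommClass F C C] [IsScalarTower F C C]

theorem e_mem (k : ℕ) : e F k ∈ GrPart F 1 := CliffordAlgebra.ι_mem_evenOdd_one _ _

theorem tau_comm (N : ℕ) (g : Gr F) : tau F N * g = g * tau F N := by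
  unfold tau
  rw [Finset.sum_mul, Finset.mul_sum]
  apply Finset.sum_congr rfl
  intro k _
  have h := SetLike.mul_mem_graded (A := CliffordAlgebra.evenOdd (0 : QuadraticForm F (ℕ →₀ F)))
    (e_mem (F := F) k) (e_mem (F := F) (N + k))
  exact even_comm (x := e F k * e F (N + k)) h g

omit [SMulCommClass F C C] [IsScalarTower F C C] in
/-- induction for two elements of `Gr ⊗ C` -/
theorem ind2 {P : Gr F ⊗[F] C → Gr F ⊗[F] C → Prop}
    (h0l : ∀ y, P 0 y) (h0r : ∀ x, P x 0)
    (hal : ∀ x x' y, P x y → P x' y → P (x + x') y) (har : ∀ x y y', P x y → P x y' → P x (y + y'))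
    (ht : ∀ g c g' c', P (g ⊗ₜ c) (g' ⊗ₜ c')) (x y : Gr F ⊗[F] C) : P x y := by
  induction x using TensorProduct.induction_on with
  | zero => exact h0l y
  | add x x' hx hx' => exact hal x x' y hx hx'
  | tmul g c =>
    induction y using TensorProduct.induction_on with
    | zero => exact h0r _
    | add y y' hy hy' => exact har _ y y' hy hy'
    | tmul g' c' => exact ht g c g' c'

theorem sg_mul (N : ℕ) (x y : Gr F ⊗[F] C) : sg C N (x * y) = sg C N x * sg C N y := by
  refine ind2 (P := fun x y => sg C N (x * y) = sg C N x * sg C N y) ?_ ?_ ?_ ?_ ?_ x y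
  · intro y; rw [zero_mul, map_zero, zero_mul]
  · intro x; rw [mul_zero, map_zero, mul_zero]
  · intro x x' y h h'; rw [add_mul, map_add, h, h', map_add, add_mul]
  · intro x y y' h h'; rw [mul_add, map_add, h, h', map_add, mul_add]
  · intro g c g' c'
    rw [Algebra.TensorProduct.tmul_mul_tmul]
    change (shn F (2 * N) (g * g')) ⊗ₜ (c * c') = (shn F (2 * N) g) ⊗ₜ c * (shn F (2 * N) g') ⊗ₜ c'
    rw [map_mul, Algebra.TensorProduct.tmul_mul_tmul]

theorem mt_left (N : ℕ) (x y : Gr F ⊗[F] C) : mt C N x * y = mt C N (x * y) := by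
  refine ind2 (P := fun x y => mt C N x * y = mt C N (x * y)) ?_ ?_ ?_ ?_ ?_ x y
  · intro y; rw [zero_mul, map_zero, zero_mul]
  · intro x; rw [mul_zero, mul_zero, map_zero]
  · intro x x' y h h'; rw [map_add, add_mul, h, h', add_mul, map_add]
  · intro x y y' h h'; rw [mul_add, h, h', mul_add, map_add]
  · intro g c g' c'
    rw [Algebra.TensorProduct.tmul_mul_tmul]
    change (tau F N * g) ⊗ₜ c * g' ⊗ₜ c' = (tau F N * (g * g')) ⊗ₜ (c * c')
    rw [Algebra.TensorProduct.tmul_mul_tmul, mul_assoc]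

theorem mt_right (N : ℕ) (x y : Gr F ⊗[F] C) : x * mt C N y = mt C N (x * y) := by
  refine ind2 (P := fun x y => x * mt C N y = mt C N (x * y)) ?_ ?_ ?_ ?_ ?_ x y
  · intro y; rw [zero_mul, zero_mul, map_zero]
  · intro x; rw [mul_zero, map_zero, mul_zero]
  · intro x x' y h h'; rw [add_mul, h, h', add_mul, map_add]
  · intro x y y' h h'; rw [map_add, mul_add, h, h', mul_add, map_add]
  · intro g c g' c'
    rw [Algebra.TensorProduct.tmul_mul_tmul]
    change g ⊗ₜ c * (tau F N * g') ⊗ₜ c' = (tau F N * (g * g')) ⊗ₜ (c * c')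
    rw [Algebra.TensorProduct.tmul_mul_tmul, ← mul_assoc, ← tau_comm, mul_assoc]

theorem mt_pow_left (N a : ℕ) (x y : Gr F ⊗[F] C) :
    ((mt C N) ^ a) x * y = ((mt C N) ^ a) (x * y) := by
  induction a generalizing x with
  | zero => rfl
  | succ a ih => rw [pow_succ, Module.End.mul_apply, Module.End.mul_apply, ih, mt_left]

theorem mt_pow_right (N b : ℕ) (x y : Gr F ⊗[F] C) :
    x * ((mt C N) ^ b) y = ((mt C N) ^ b) (x * y) := by
  induction b generalizing y with
  | zero => rfl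
  | succ a ih => rw [pow_succ, Module.End.mul_apply, Module.End.mul_apply, ih, mt_right]

theorem mt_pow_mul (N a b : ℕ) (x y : Gr F ⊗[F] C) :
    ((mt C N) ^ a) (sg C N x) * ((mt C N) ^ b) (sg C N y) =
      ((mt C N) ^ (a + b)) (sg C N (x * y)) := by
  rw [mt_pow_left, mt_pow_right, ← Module.End.mul_apply, ← pow_add, ← sg_mul]

theorem GW_mul {W₁ W₂ W₃ : Submodule F C} (h : ∀ x ∈ W₁, ∀ y ∈ W₂, x * y ∈ W₃)
    {x y : Gr F ⊗[F] C} (hx : x ∈ GW W₁) (hy : y ∈ GW W₂) : x * y ∈ GW W₃ := by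
  unfold GW at hx hy ⊢
  induction hx using Submodule.span_induction with
  | zero => rw [zero_mul]; exact Submodule.zero_mem _
  | add x x' _ _ hx hx' => rw [add_mul]; exact Submodule.add_mem _ hx hx'
  | smul c x _ hx => rw [smul_mul_assoc]; exact Submodule.smul_mem _ c hx
  | mem x hx =>
    obtain ⟨g, a, ha, rfl⟩ := hx
    induction hy using Submodule.span_induction with
    | zero => rw [mul_zero]; exact Submodule.zero_mem _
    | add y y' _ _ hy hy' => rw [mul_add]; exact Submodule.add_mem _ hy hy'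
    | smul c y _ hy => rw [mul_smul_comm]; exact Submodule.smul_mem _ c hy
    | mem y hy =>
      obtain ⟨g', a', ha', rfl⟩ := hy
      rw [Algebra.TensorProduct.tmul_mul_tmul]
      exact Submodule.subset_span ⟨g * g', a * a', h a ha a' ha', rfl⟩

omit [SMulCommClass F C C] [IsScalarTower F C C] in
theorem GW_bot {x : Gr F ⊗[F] C} (hx : x ∈ GW (⊥ : Submodule F C)) : x = 0 := by
  unfold GW at hx
  induction hx using Submodule.span_induction with
  | zero => rfl
  | add x x' _ _ hx hx' => rw [hx, hx', add_zero]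
  | smul c x _ hx => rw [hx, smul_zero]
  | mem x hx =>
    obtain ⟨g, a, ha, rfl⟩ := hx
    rw [Submodule.mem_bot] at ha
    rw [ha, tmul_zero]

omit [SMulCommClass F C C] [IsScalarTower F C C] in
theorem GW_top (x : Gr F ⊗[F] C) : x ∈ GW (⊤ : Submodule F C) := by
  unfold GW
  induction x using TensorProduct.induction_on with
  | zero => exact Submodule.zero_mem _
  | add x x' hx hx' => exact Submodule.add_mem _ hx hx'
  | tmul g c => exact Submodule.subset_span ⟨g, c, Submodule.mem_top, rfl⟩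

/-- the coefficients of a product -/
def rr (M : ℕ) (q q' : ℕ → Gr F ⊗[F] C) (d : ℕ) : Gr F ⊗[F] C :=
  ∑ ab ∈ (Finset.range M ×ˢ Finset.range M).filter (fun ab => ab.1 + ab.2 = d), q ab.1 * q' ab.2

theorem rr_mem {W : ℕ → Submodule F C} (hW : ∀ a b, ∀ x ∈ W a, ∀ y ∈ W b, x * y ∈ W (a + b))
    (M : ℕ) {q q' : ℕ → Gr F ⊗[F] C} (hq : ∀ d, q d ∈ GW (W d)) (hq' : ∀ d, q' d ∈ GW (W d))
    (d : ℕ) : rr M q q' d ∈ GW (W d) := by
  unfold rr
  apply Submodule.sum_mem
  intro ab hab
  rw [Finset.mem_filter] at hab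
  rw [← hab.2]
  exact GW_mul (hW _ _) (hq _) (hq' _)

theorem prod_sum (T : ℕ → Gr F ⊗[F] C →ₗ[F] Gr F ⊗[F] C)
    (hT : ∀ a b x y, T a x * T b y = T (a + b) (x * y)) {W : ℕ → Submodule F C}
    (hW : ∀ a b, ∀ x ∈ W a, ∀ y ∈ W b, x * y ∈ W (a + b)) (M : ℕ) (hM : ∀ d, M ≤ d → W d = ⊥)
    {q q' : ℕ → Gr F ⊗[F] C} (hq : ∀ d, q d ∈ GW (W d)) (hq' : ∀ d, q' d ∈ GW (W d)) :
    (∑ a ∈ Finset.range M, T a (q a)) * (∑ b ∈ Finset.range M, T b (q' b)) =
      ∑ d ∈ Finset.range M, T d (rr M q q' d) := by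
  rw [Finset.sum_mul_sum, ← Finset.sum_product', ← Finset.sum_fiberwise_of_maps_to
    (s := Finset.range M ×ˢ Finset.range M) (t := Finset.range (2 * M)) (g := fun ab => ab.1 + ab.2)]
  · symm
    have h1 : ∑ d ∈ Finset.range M, T d (rr M q q' d) =
        ∑ d ∈ Finset.range (2 * M), T d (rr M q q' d) := by
      apply Finset.sum_subset
      · intro d hd
        rw [Finset.mem_range] at hd ⊢
        omega
      · intro d _ hd
        rw [Finset.mem_range, not_lt] at hd
        have := rr_mem hW M hq hq' d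
        rw [hM d hd] at this
        rw [GW_bot this, map_zero]
    rw [h1]
    apply Finset.sum_congr rfl
    intro d _
    unfold rr
    rw [map_sum]
    apply Finset.sum_congr rfl
    intro ab hab
    rw [Finset.mem_filter] at hab
    rw [hT, hab.2]
  · intro ab hab
    rw [Finset.mem_product, Finset.mem_range, Finset.mem_range] at hab
    rw [Finset.mem_range]
    omega

/-- the pairs `(∑ τ^d sg(q_d), ∑ q_d)` -/
def QQ (N M : ℕ) (W : ℕ → Submodule F C)
    (hW : ∀ a b, ∀ x ∈ W a, ∀ y ∈ W b, x * y ∈ W (a + b)) (hM : ∀ d, M ≤ d → W d = ⊥) :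
    NonUnitalSubalgebra F ((Gr F ⊗[F] C) × (Gr F ⊗[F] C)) where
  carrier := {p | ∃ q : ℕ → Gr F ⊗[F] C, (∀ d, q d ∈ GW (W d)) ∧
    p.1 = ∑ d ∈ Finset.range M, ((mt C N) ^ d) (sg C N (q d)) ∧ p.2 = ∑ d ∈ Finset.range M, q d}
  zero_mem' := ⟨fun _ => 0, fun _ => Submodule.zero_mem _, by simp, by simp⟩
  add_mem' := by
    rintro p p' ⟨q, hq, h1, h2⟩ ⟨q', hq', h1', h2'⟩
    refine ⟨fun d => q d + q' d, fun d => Submodule.add_mem _ (hq d) (hq' d), ?_, ?_⟩
    · rw [Prod.fst_add, h1, h1', ← Finset.sum_add_distrib]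
      simp only [map_add]
    · rw [Prod.snd_add, h2, h2', ← Finset.sum_add_distrib]
  smul_mem' := by
    rintro c p ⟨q, hq, h1, h2⟩
    refine ⟨fun d => c • q d, fun d => Submodule.smul_mem _ c (hq d), ?_, ?_⟩
    · rw [Prod.smul_fst, h1, Finset.smul_sum]
      simp only [map_smul]
    · rw [Prod.smul_snd, h2, Finset.smul_sum]
  mul_mem' := by
    rintro p p' ⟨q, hq, h1, h2⟩ ⟨q', hq', h1', h2'⟩
    refine ⟨rr M q q', rr_mem hW M hq hq', ?_, ?_⟩
    · rw [Prod.fst_mul, h1, h1']
      exact prod_sum (fun d => ((mt C N) ^ d).comp (sg C N))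
        (fun a b x y => mt_pow_mul N a b x y) hW M hM hq hq'
    · rw [Prod.snd_mul, h2, h2']
      exact prod_sum (fun _ => LinearMap.id) (fun a b x y => rfl) hW M hM hq hq'

end

end RQ

theorem t_RQ (h : S_TAU.{u}) : S_RQ.{u} := by
  intro F _ _ C _ _ _ _ N W hW0 hW hN f x' x'' hx'' h0
  have hM : ∀ d, N + 2 ≤ d → W d = ⊥ := fun d hd => hN d (by omega)
  let Q := RQ.QQ N (N + 2) W hW hM
  let v : ℕ → (Gr F ⊗[F] C) × (Gr F ⊗[F] C) := fun n =>
    (sg C N (x' n) + mt C N (sg C N (x'' n)), x' n + x'' n)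
  have hv : ∀ n, v n ∈ Q := by
    intro n
    refine ⟨fun d => if d = 0 then x' n else if d = 1 then x'' n else 0, ?_, ?_, ?_⟩
    · intro d
      rcases d with _ | _ | d
      · rw [hW0]; exact RQ.GW_top _
      · exact hx'' n
      · exact Submodule.zero_mem _
    · rw [Finset.sum_range_succ', Finset.sum_range_succ']
      simp [v, add_comm]
    · rw [Finset.sum_range_succ', Finset.sum_range_succ']
      simp [v, add_comm]
  obtain ⟨q, hq, h1, h2⟩ := RQ.lift_mem Q v hv f
  have e1 : (FreeNonUnitalNonAssocAlgebra.lift F v f).1 =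
      FreeNonUnitalNonAssocAlgebra.lift F (fun n => sg C N (x' n) + mt C N (sg C N (x'' n))) f :=
    RQ.lift_comp (NonUnitalAlgHom.fst F _ _) v f
  have e2 : (FreeNonUnitalNonAssocAlgebra.lift F v f).2 =
      FreeNonUnitalNonAssocAlgebra.lift F (fun n => x' n + x'' n) f :=
    RQ.lift_comp (NonUnitalAlgHom.snd F _ _) v f
  have hz : ∀ d, N ≤ d → q d = 0 := by
    intro d hd
    have := hq d
    rw [hN d hd] at this
    exact RQ.GW_bot this
  have hall : ∀ d, q d = 0 := by
    intro d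
    by_cases hd : d < N
    · apply h F C N q ?_ d hd
      rw [e1, h0] at h1
      rw [h1, Finset.sum_range_succ, Finset.sum_range_succ, hz N le_rfl, hz (N + 1) (by omega)]
      simp
    · exact hz d (by omega)
  rw [← e2, h2]
  exact Finset.sum_eq_zero fun d _ => hall d

end Pool.Agent.Q199.SR
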