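import Pool.Agent.Q199.SR.Stm

/-!
Scalar extension of identities via evaluation of multivariate polynomials.
-/

set_option autoImplicit false

open TensorProduct

namespace Pool.Agent.Q199.SR.SE

open Pool.Agent.Q29.SR

universe u

/-- the elements of the span are finite sums of the `ρ κ y` -/
theorem span_repr {F : Type u} [Field F] {K : Type u} [CommRing K] [Algebra F K]
    {E : Type u} [NonUnitalNonAssocRing E] [Module F E]
    (ρ : K →ₐ[F] Module.End F E) (H : NonUnitalSubalgebra F E) (x : E)
    (hx : x ∈ Submodule.span F {x | ∃ κ, ∃ y ∈ H, x = ρ κ y}) :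
    ∃ (m : ℕ) (κ : ℕ → K) (y : ℕ → E), (∀ j, y j ∈ H) ∧
      x = ∑ j ∈ Finset.range m, ρ (κ j) (y j) := by
  induction hx using Submodule.span_induction with
  | mem x h =>
    obtain ⟨κ, y, hy, rfl⟩ := h
    exact ⟨1, fun _ => κ, fun _ => y, fun _ => hy, by simp⟩
  | zero => exact ⟨0, fun _ => 0, fun _ => 0, fun _ => H.zero_mem, by simp⟩
  | add x y _ _ h1 h2 =>
    obtain ⟨m1, κ1, y1, hy1, e1⟩ := h1
    obtain ⟨m2, κ2, y2, hy2, e2⟩ := h2
    refine ⟨m1 + m2, fun j => if j < m1 then κ1 j else κ2 (j - m1),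
      fun j => if j < m1 then y1 j else y2 (j - m1), fun j => ?_, ?_⟩
    · by_cases h : j < m1
      · simp only [h, if_true]; exact hy1 j
      · simp only [h, if_false]; exact hy2 _
    · rw [Finset.sum_range_add, e1, e2]
      congr 1
      · refine Finset.sum_congr rfl fun j hj => ?_
        have : j < m1 := Finset.mem_range.1 hj
        simp only [this, if_true]
      · refine Finset.sum_congr rfl fun j _ => ?_
        have : ¬ (m1 + j < m1) := by omega
        simp only [this, if_false, Nat.add_sub_cancel_left]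
  | smul a x _ h1 =>
    obtain ⟨m, κ, y, hy, e⟩ := h1
    refine ⟨m, κ, fun j => a • y j, fun j => SMulMemClass.smul_mem a (hy j), ?_⟩
    rw [e, Finset.smul_sum]
    exact Finset.sum_congr rfl fun j _ => (map_smul (ρ (κ j)) a (y j)).symm

section

variable {F : Type u} [Field F] {R : Type u} [CommRing R] [Algebra F R]
  {E : Type u} [NonUnitalNonAssocRing E] [Module F E] [SMulCommClass F E E] [IsScalarTower F E E]

/-- the linear map `p ⊗ x ↦ θ p x` -/
noncomputable def actL (θ : R →ₐ[F] Module.End F E) : R ⊗[F] E →ₗ[F] E :=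
  TensorProduct.lift θ.toLinearMap

omit [SMulCommClass F E E] [IsScalarTower F E E] in
theorem actL_tmul (θ : R →ₐ[F] Module.End F E) (p : R) (x : E) :
    actL θ (p ⊗ₜ x) = θ p x := rfl

theorem actL_mul (θ : R →ₐ[F] Module.End F E) (h1 : ∀ κ x y, θ κ (x * y) = θ κ x * y)
    (h2 : ∀ κ x y, θ κ (x * y) = x * θ κ y) (a b : R ⊗[F] E) :
    actL θ (a * b) = actL θ a * actL θ b := by
  induction a using TensorProduct.induction_on with
  | zero => rw [zero_mul, map_zero, zero_mul]
  | add a a' ha ha' => rw [add_mul, map_add, ha, ha', map_add, add_mul]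
  | tmul p x =>
    induction b using TensorProduct.induction_on with
    | zero => rw [mul_zero, map_zero, mul_zero]
    | add b b' hb hb' => rw [mul_add, map_add, hb, hb', map_add, mul_add]
    | tmul q y =>
      rw [Algebra.TensorProduct.tmul_mul_tmul, actL_tmul, actL_tmul, actL_tmul, map_mul θ p q,
        Module.End.mul_apply, h2, h1]

/-- the same as a homomorphism -/
noncomputable def act (θ : R →ₐ[F] Module.End F E) (h1 : ∀ κ x y, θ κ (x * y) = θ κ x * y)
    (h2 : ∀ κ x y, θ κ (x * y) = x * θ κ y) : R ⊗[F] E →ₙₐ[F] E :=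
  { actL θ with
    map_zero' := map_zero _
    map_mul' := actL_mul θ h1 h2 }

theorem act_tmul (θ : R →ₐ[F] Module.End F E) (h1 : ∀ κ x y, θ κ (x * y) = θ κ x * y)
    (h2 : ∀ κ x y, θ κ (x * y) = x * θ κ y) (p : R) (x : E) :
    act θ h1 h2 (p ⊗ₜ x) = θ p x := rfl

end

theorem hom_lift {F : Type u} [Field F] {A B : Type u} [NonUnitalNonAssocSemiring A] [Module F A]
    [IsScalarTower F A A] [SMulCommClass F A A] [NonUnitalNonAssocSemiring B] [Module F B]
    [IsScalarTower F B B] [SMulCommClass F B B] (φ : A →ₙₐ[F] B) (w : ℕ → A) (f : NAPoly F) :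
    φ (FreeNonUnitalNonAssocAlgebra.lift F w f) =
      FreeNonUnitalNonAssocAlgebra.lift F (fun n => φ (w n)) f := by
  have : φ.comp (FreeNonUnitalNonAssocAlgebra.lift F w) =
      FreeNonUnitalNonAssocAlgebra.lift F (fun n => φ (w n)) := by
    apply FreeNonUnitalNonAssocAlgebra.hom_ext
    intro n
    simp [FreeNonUnitalNonAssocAlgebra.lift_of_apply]
  exact congrArg (fun g => g f) this

/-- the evaluation at `t` as an action -/
noncomputable def evT (F : Type u) [Field F] (E : Type u) [NonUnitalNonAssocRing E] [Module F E]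
    (t : ℕ × ℕ → F) : MvPolynomial (ℕ × ℕ) F →ₐ[F] Module.End F E :=
  (Algebra.ofId F (Module.End F E)).comp (MvPolynomial.aeval t)

theorem evT_apply {F : Type u} [Field F] {E : Type u} [NonUnitalNonAssocRing E] [Module F E]
    (t : ℕ × ℕ → F) (p : MvPolynomial (ℕ × ℕ) F) (x : E) :
    evT F E t p x = MvPolynomial.eval t p • x := by
  unfold evT
  rw [AlgHom.comp_apply, Algebra.ofId_apply, Module.algebraMap_end_apply]
  rfl

end Pool.Agent.Q199.SR.SE

namespace Pool.Agent.Q199.SR

open Pool.Agent.Q29.SR SE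

universe u

theorem SE.joint {F : Type u} [Field F] [Infinite F] {E : Type u} [NonUnitalNonAssocRing E]
    [Module F E] (z : MvPolynomial (ℕ × ℕ) F ⊗[F] E) (h : ∀ t, actL (evT F E t) z = 0) :
    z = 0 := by
  classical
  let b := Module.Basis.ofVectorSpace F E
  have key : ∀ (t : ℕ × ℕ → F) (z : MvPolynomial (ℕ × ℕ) F ⊗[F] E) i,
      MvPolynomial.eval t (TensorProduct.equivFinsuppOfBasisRight b z i) =
        b.repr (actL (evT F E t) z) i := by
    intro t z i
    induction z using TensorProduct.induction_on with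
    | zero => simp
    | add a a' ha ha' => simp only [map_add, Finsupp.add_apply, ha, ha']
    | tmul p x =>
      rw [TensorProduct.equivFinsuppOfBasisRight_apply_tmul_apply, actL_tmul, evT_apply,
        MvPolynomial.smul_eval, map_smul, Finsupp.smul_apply, smul_eq_mul, mul_comm]
  apply (TensorProduct.equivFinsuppOfBasisRight b).injective
  rw [map_zero]
  ext1 i
  apply MvPolynomial.funext
  intro t
  rw [key t z i, h t]
  simp

theorem t_SE : S_SE.{u} := by
  intro F _ _ K _ _ E _ _ _ _ ρ h1 h2 H f hf v hv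
  choose m κ y hy hvn using fun n => span_repr ρ H (v n) (hv n)
  let w : ℕ → MvPolynomial (ℕ × ℕ) F ⊗[F] E := fun n =>
    ∑ j ∈ Finset.range (m n), (MvPolynomial.X (n, j) : MvPolynomial (ℕ × ℕ) F) ⊗ₜ[F] y n j
  -- the evaluations
  have c1 : ∀ (t : ℕ × ℕ → F) p (x x' : E), evT F E t p (x * x') = evT F E t p x * x' := by
    intro t p x x'
    rw [evT_apply, evT_apply, smul_mul_assoc]
  have c2 : ∀ (t : ℕ × ℕ → F) p (x x' : E), evT F E t p (x * x') = x * evT F E t p x' := by
    intro t p x x'
    rw [evT_apply, evT_apply, mul_smul_comm]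
  have hw0 : FreeNonUnitalNonAssocAlgebra.lift F w f = 0 := by
    apply SE.joint
    intro t
    have e := hom_lift (act (evT F E t) (c1 t) (c2 t)) w f
    have e' : FreeNonUnitalNonAssocAlgebra.lift F
        (fun n => act (evT F E t) (c1 t) (c2 t) (w n)) f = 0 := by
      apply hf
      intro n
      simp only [w, map_sum]
      refine H.sum_mem ?_
      intro j _
      rw [act_tmul, evT_apply]
      exact SMulMemClass.smul_mem _ (hy n j)
    rw [e'] at e
    exact e
  -- the specialisation
  let kk : ℕ × ℕ → K := fun nj => κ nj.1 nj.2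
  let θ : MvPolynomial (ℕ × ℕ) F →ₐ[F] Module.End F E := ρ.comp (MvPolynomial.aeval kk)
  have d1 : ∀ p (x x' : E), θ p (x * x') = θ p x * x' := fun p x x' => h1 _ x x'
  have d2 : ∀ p (x x' : E), θ p (x * x') = x * θ p x' := fun p x x' => h2 _ x x'
  have e := hom_lift (act θ d1 d2) w f
  rw [hw0, map_zero] at e
  have hwv : (fun n => act θ d1 d2 (w n)) = v := by
    funext n
    simp only [w, map_sum]
    rw [hvn n]
    refine Finset.sum_congr rfl fun j _ => ?_
    rw [act_tmul]
    change ρ (MvPolynomial.aeval kk (MvPolynomial.X (n, j))) (y n j) = _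
    rw [MvPolynomial.aeval_X]
  rw [hwv] at e
  exact e.symm

end Pool.Agent.Q199.SR
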