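import Pool.Agent.Q199.SR.Stm

/-!
Project SR, part STR: structure of finite-dimensional superalgebras, from `S_WA` and `S_FIL`
(helper110).
-/

open TensorProduct

namespace Pool.Agent.Q199.SR

open Pool.Agent.Q29.SR

universe u

namespace STR

section

variable {K R C : Type u} [Field K] [NonUnitalNonAssocRing R] [Module K R]
  [NonUnitalNonAssocRing C] [Module K C]

theorem pw_map (φ : R →ₗ[K] C) (hφ : ∀ x y, φ (x * y) = φ x * φ y) (J : Submodule K R) (n : ℕ) :
    pw (J.map φ) n = (pw J n).map φ := by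
  induction n with
  | zero => rfl
  | succ n ih =>
    change Submodule.span K {z | ∃ x ∈ J.map φ, ∃ y ∈ pw (J.map φ) n, z = x * y} =
      (Submodule.span K {z | ∃ x ∈ J, ∃ y ∈ pw J n, z = x * y}).map φ
    rw [ih, Submodule.map_span]
    congr 1
    ext z
    constructor
    · rintro ⟨_, ⟨x, hx, rfl⟩, _, ⟨y, hy, rfl⟩, rfl⟩
      exact ⟨x * y, ⟨x, hx, y, hy, rfl⟩, hφ x y⟩
    · rintro ⟨_, ⟨x, hx, y, hy, rfl⟩, rfl⟩
      exact ⟨φ x, ⟨x, hx, rfl⟩, φ y, ⟨y, hy, rfl⟩, hφ x y⟩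

theorem closure_map (φ : R →ₗ[K] C) (hφ : ∀ x y, φ (x * y) = φ x * φ y) (u v : R) (x : R)
    (hx : x ∈ Submodule.span K (Subsemigroup.closure {u, v} : Set R)) :
    φ x ∈ Submodule.span K (Subsemigroup.closure {φ u, φ v} : Set C) := by
  induction hx using Submodule.span_induction with
  | zero => rw [map_zero]; exact Submodule.zero_mem _
  | add x y _ _ ihx ihy => rw [map_add]; exact Submodule.add_mem _ ihx ihy
  | smul c x _ ih => rw [map_smul]; exact Submodule.smul_mem _ c ih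
  | mem x hx =>
    apply Submodule.subset_span
    change x ∈ Subsemigroup.closure {u, v} at hx
    change φ x ∈ Subsemigroup.closure {φ u, φ v}
    induction hx using Subsemigroup.closure_induction with
    | mem x hx =>
      apply Subsemigroup.subset_closure
      rcases hx with rfl | hx
      · exact Or.inl rfl
      · rw [Set.mem_singleton_iff] at hx
        subst hx
        exact Or.inr rfl
    | mul x y _ _ ihx ihy => rw [hφ]; exact Subsemigroup.mul_mem _ ihx ihy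

end

end STR

theorem t_STR (h1 : S_WA.{u}) (h2 : S_FIL.{u}) : S_STR.{u} := by
  intro K _ _ C _ _ _ _ _ has C₀ C₁ hc h00 h01 h10 h11
  let R : NonUnitalSubalgebra K C := C₀.toNonUnitalSubalgebra (fun x y hx hy => h00 x hx y hy)
  let φ : R →ₗ[K] C := ⟨⟨Subtype.val, fun _ _ => rfl⟩, fun _ _ => rfl⟩
  have hφ : ∀ x y, φ (x * y) = φ x * φ y := fun _ _ => rfl
  have hinj : Function.Injective φ := Subtype.val_injective
  have hmem : ∀ x : C, x ∈ C₀ → ∃ r : R, φ r = x := fun x hx => ⟨⟨x, hx⟩, rfl⟩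
  have hmem' : ∀ r : R, φ r ∈ C₀ := fun r => r.2
  have hfd : FiniteDimensional K R := Module.Finite.of_injective φ hinj
  obtain ⟨u, v, J, hJ, hmax, hgen⟩ := h1 K R (fun x y z => hinj (has _ _ _))
  have hJ' : NilIdeal C₀ (J.map φ) := by
    refine ⟨?_, ?_, ?_⟩
    · rintro _ ⟨x, -, rfl⟩
      exact hmem' x
    · rintro _ ⟨x, hx, rfl⟩ y hy
      obtain ⟨y, rfl⟩ := hmem y hy
      have := hJ.2.1 x hx y Submodule.mem_top
      exact ⟨⟨x * y, this.1, rfl⟩, ⟨y * x, this.2, rfl⟩⟩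
    · obtain ⟨n, hn⟩ := hJ.2.2
      exact ⟨n, by rw [STR.pw_map φ hφ, hn, Submodule.map_bot]⟩
  have hmax' : ∀ J', NilIdeal C₀ J' → J' ≤ J.map φ := by
    intro J' hJ'
    have e : (J'.comap φ).map φ = J' := by
      apply le_antisymm (Submodule.map_comap_le _ _)
      intro x hx
      obtain ⟨r, rfl⟩ := hmem x (hJ'.1 hx)
      exact ⟨r, hx, rfl⟩
    have hn : NilIdeal ⊤ (J'.comap φ) := by
      refine ⟨le_top, ?_, ?_⟩
      · intro x hx y _
        have := hJ'.2.1 (φ x) hx (φ y) (hmem' y)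
        exact this
      · obtain ⟨n, hn⟩ := hJ'.2.2
        refine ⟨n, ?_⟩
        apply Submodule.map_injective_of_injective hinj
        rw [← STR.pw_map φ hφ, e, hn, Submodule.map_bot]
    rw [← e]
    exact Submodule.map_mono (hmax _ hn)
  obtain ⟨N, W, hW0, hWN, hWm, hJW⟩ := h2 K C has C₀ C₁ hc h00 h01 h10 h11 (J.map φ) hJ' hmax'
  refine ⟨φ u, hmem' u, φ v, hmem' v, N, W, hW0, hWN, hWm, ?_⟩
  intro x hx
  obtain ⟨r, rfl⟩ := hmem x hx
  obtain ⟨y, hy, z, hz, rfl⟩ := Submodule.mem_sup.mp (hgen r)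
  exact ⟨φ y, STR.closure_map φ hφ u v y hy, φ z, ⟨hJW ⟨z, hz, rfl⟩, hmem' z⟩, map_add φ y z⟩

end Pool.Agent.Q199.SR
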