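import Pool.Agent.Q199.SR.Stm

/-!
# Job SUB of project SR (helper54): the superalgebra generated by homogeneous elements
-/

set_option autoImplicit false

namespace Pool.Agent.Q199.SR

open Pool.Agent.Q29.SR

universe u

noncomputable section

namespace Sub54

variable {F : Type u} [Field F]

/-- the inclusion of a subalgebra as a linear map -/
def inc {E : Type u} [NonUnitalNonAssocRing E] [Module F E] (H : NonUnitalSubalgebra F E) :
    H →ₗ[F] E where
  toFun := Subtype.val
  map_add' := fun _ _ => rfl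
  map_smul' := fun _ _ => rfl

theorem inc_injective {E : Type u} [NonUnitalNonAssocRing E] [Module F E]
    (H : NonUnitalSubalgebra F E) : Function.Injective (inc H) := Subtype.val_injective

theorem decomp (D : SuperAlg F) {S : Set D.carrier} (hS : ∀ x ∈ S, x ∈ D.part 0 ∨ x ∈ D.part 1)
    {x : D.carrier} (hx : x ∈ NonUnitalAlgebra.adjoin F S) :
    ∃ y ∈ NonUnitalAlgebra.adjoin F S, ∃ z ∈ NonUnitalAlgebra.adjoin F S,
      y ∈ D.part 0 ∧ z ∈ D.part 1 ∧ y + z = x := by
  induction hx using NonUnitalAlgebra.adjoin_induction with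
  | mem x hx =>
    have h1 := NonUnitalAlgebra.subset_adjoin F hx
    rcases hS x hx with h | h
    · exact ⟨x, h1, 0, zero_mem _, h, zero_mem _, add_zero x⟩
    · exact ⟨0, zero_mem _, x, h1, zero_mem _, h, zero_add x⟩
  | zero => exact ⟨0, zero_mem _, 0, zero_mem _, zero_mem _, zero_mem _, add_zero 0⟩
  | add x x' hx hx' h h' =>
    obtain ⟨y, hy, z, hz, hy0, hz1, rfl⟩ := h
    obtain ⟨y', hy', z', hz', hy0', hz1', rfl⟩ := h'
    exact ⟨y + y', add_mem hy hy', z + z', add_mem hz hz', add_mem hy0 hy0', add_mem hz1 hz1',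
      by abel⟩
  | smul r x hx h =>
    obtain ⟨y, hy, z, hz, hy0, hz1, rfl⟩ := h
    exact ⟨r • y, SMulMemClass.smul_mem r hy, r • z, SMulMemClass.smul_mem r hz,
      Submodule.smul_mem _ r hy0, Submodule.smul_mem _ r hz1, (smul_add r y z).symm⟩
  | mul x x' hx hx' h h' =>
    obtain ⟨y, hy, z, hz, hy0, hz1, rfl⟩ := h
    obtain ⟨y', hy', z', hz', hy0', hz1', rfl⟩ := h'
    refine ⟨y * y' + z * z', add_mem (mul_mem hy hy') (mul_mem hz hz'),
      y * z' + z * y', add_mem (mul_mem hy hz') (mul_mem hz hy'), add_mem ?_ ?_, add_mem ?_ ?_,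
      ?_⟩
    · simpa using D.mul_mem hy0 hy0'
    · have := D.mul_mem hz1 hz1'
      rwa [show (1 : ZMod 2) + 1 = 0 from rfl] at this
    · simpa using D.mul_mem hy0 hz1'
    · simpa using D.mul_mem hz1 hy0'
    · simp only [mul_add, add_mul]
      abel

/-- the superalgebra on the subalgebra generated by homogeneous elements -/
def sub (D : SuperAlg F) (S : Set D.carrier) (hS : ∀ x ∈ S, x ∈ D.part 0 ∨ x ∈ D.part 1) :
    SuperAlg F where
  carrier := NonUnitalAlgebra.adjoin F S
  part := fun p => (D.part p).comap (inc (NonUnitalAlgebra.adjoin F S))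
  isCompl := by
    constructor
    · rw [Submodule.disjoint_def]
      intro x h0 h1
      have h := Submodule.disjoint_def.1 D.isCompl.disjoint _ h0 h1
      exact inc_injective _ (h.trans (map_zero _).symm)
    · rw [codisjoint_iff, eq_top_iff]
      rintro ⟨x, hx⟩ -
      obtain ⟨y, hy, z, hz, hy0, hz1, h⟩ := decomp D hS hx
      refine Submodule.mem_sup.2 ⟨⟨y, hy⟩, hy0, ⟨z, hz⟩, hz1, ?_⟩
      exact Subtype.ext h
  mul_mem := fun {i j a b} ha hb => D.mul_mem ha hb

theorem adjoin_top (D : SuperAlg F) {ι : Type*} {κ : Type*} (a : ι → D.carrier)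
    (b : κ → D.carrier)
    (ha : ∀ i, a i ∈ NonUnitalAlgebra.adjoin F (Set.range a ∪ Set.range b))
    (hb : ∀ i, b i ∈ NonUnitalAlgebra.adjoin F (Set.range a ∪ Set.range b)) :
    NonUnitalAlgebra.adjoin F
      ((Set.range fun i => (⟨a i, ha i⟩ :
          NonUnitalAlgebra.adjoin F (Set.range a ∪ Set.range b))) ∪
        Set.range fun i => (⟨b i, hb i⟩ :
          NonUnitalAlgebra.adjoin F (Set.range a ∪ Set.range b))) = ⊤ := by
  rw [eq_top_iff]
  rintro ⟨x, hx⟩ -
  induction hx using NonUnitalAlgebra.adjoin_induction with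
  | mem x hx =>
    refine NonUnitalAlgebra.subset_adjoin F ?_
    rcases hx with ⟨i, rfl⟩ | ⟨i, rfl⟩
    · exact Or.inl ⟨i, rfl⟩
    · exact Or.inr ⟨i, rfl⟩
  | zero => exact zero_mem _
  | add x x' hx hx' h h' => exact add_mem h h'
  | smul r x hx h => exact SMulMemClass.smul_mem r h
  | mul x x' hx hx' h h' => exact mul_mem h h'

end Sub54

open Sub54

theorem t_SUB : S_SUB.{u} := by
  intro F _ D r s a b ha hb
  have hS : ∀ x ∈ Set.range a ∪ Set.range b, x ∈ D.part 0 ∨ x ∈ D.part 1 := by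
    rintro x (⟨i, rfl⟩ | ⟨i, rfl⟩)
    · exact Or.inl (ha i)
    · exact Or.inr (hb i)
  have ha' : ∀ i, a i ∈ NonUnitalAlgebra.adjoin F (Set.range a ∪ Set.range b) :=
    fun i => NonUnitalAlgebra.subset_adjoin F (Or.inl ⟨i, rfl⟩)
  have hb' : ∀ i, b i ∈ NonUnitalAlgebra.adjoin F (Set.range a ∪ Set.range b) :=
    fun i => NonUnitalAlgebra.subset_adjoin F (Or.inr ⟨i, rfl⟩)
  refine ⟨sub D _ hS, inc (NonUnitalAlgebra.adjoin F (Set.range a ∪ Set.range b)),
    inc_injective _, fun _ _ => rfl, fun _ _ => Iff.rfl, ?_, fun y hy => ⟨⟨y, hy⟩, rfl⟩⟩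
  exact ⟨fun i => ⟨a i, ha' i⟩, fun i => ⟨b i, hb' i⟩, ha, hb, adjoin_top D a b ha' hb'⟩

end

end Pool.Agent.Q199.SR
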