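import Pool.Agent.Q29.SR.Gras

/-!
Project SR (helper199), MP_1a662b_al: associative varieties with a unique basic superrank.

THEOREM. Let `F` be a field of characteristic `0` and let `B` be a finite-dimensional associative
superalgebra over `F`. The variety `V` generated by the Grassmann envelope of `B` is generated by
the Grassmann envelope of a `V`-superalgebra which is generated by two even and `s` odd elements,
for some `s`.

PROOF. `K` = algebraic closure of `F`, `C = K ⊗ B`. There are `u, v ∈ C₀` and a filtration `W` of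
`C` with `W 0 = C`, `W a * W b ⊆ W (a+b)`, `W N = 0`, such that `C₀` is the sum of the `K`-span of
the products of `u, v` and of `I = W 1 ∩ C₀` (`S_STR`: Wedderburn-Artin for `C₀` modulo its radical
`J`; the ideal of `C` generated by `J` is nilpotent). Adjoin `N` odd anticommuting variables
`ξ_k` to `C` (`S_EXT`) and let `A` be the superalgebra over `F` generated by `u, v`, the elements of a `K`-basis of
`C₁` and `ξ_k c` (odd), `c` in a `K`-basis of `I`. The envelope of `A` embeds in the envelope of `C`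
(`g ⊗ ξ_k c ↦ e_k sh^N(g) ⊗ c`), so `A` is a `V`-superalgebra. Conversely let `f` be an identity of the envelope of
`A`. It vanishes on the `K`-span of the image of `G(A)` in `Gr ⊗ C` (`S_SE`). For
`x = x' + x'' ∈ G(C)`, `x'' ∈ Gr₀ ⊗ I`, this span contains `sg x' + τ sg x''`, `sg = sh^(2N)`,
`τ = ∑_{k<N} e_k e_(N+k)`. Therefore `f(x) = 0` (`S_RQ`).
-/

open TensorProduct

namespace Pool.Agent.Q199.SR

open Pool.Agent.Q29.SR

universe u

noncomputable section

/-- The parts of a superalgebra form a superalgebra in the unbundled sense. -/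
theorem isSuper {F : Type u} [Field F] (A : SuperAlg F) : IsSuperalgebra A.part :=
  ⟨A.isCompl, A.mul_mem⟩

theorem envelope_satisfies_iff {F : Type u} [Field F] (A : SuperAlg F) (f : NAPoly F) :
    A.envelope.Satisfies f ↔ IsIdentity (envelope A.part (isSuper A)) f := Iff.rfl

variable (F : Type u) [Field F]

/-- The generator `e_k` of the Grassmann algebra. -/
def e (k : ℕ) : Gr F := ExteriorAlgebra.ι F (Finsupp.single k (1 : F))

/-- The `n`-fold shift `e_k ↦ e_(k+n)` of the Grassmann algebra. -/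
def shn : ℕ → Gr F →ₐ[F] Gr F
  | 0 => AlgHom.id F _
  | n + 1 => (shn n).comp shiftG

/-- `τ = ∑_{k<N} e_k e_(N+k)`. -/
def tau (N : ℕ) : Gr F := ∑ k ∈ Finset.range N, e F k * e F (N + k)

variable {F}

/-- the shift by `2N` on `Gr ⊗ V` -/
def sg (V : Type u) [AddCommGroup V] [Module F V] (N : ℕ) :
    Gr F ⊗[F] V →ₗ[F] Gr F ⊗[F] V := LinearMap.rTensor V (shn F (2 * N)).toLinearMap

/-- multiplication by `τ` on `Gr ⊗ V` -/
def mt (V : Type u) [AddCommGroup V] [Module F V] (N : ℕ) :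
    Gr F ⊗[F] V →ₗ[F] Gr F ⊗[F] V := LinearMap.rTensor V (LinearMap.mulLeft F (tau F N))

/-- the span of the `g ⊗ c`, `c ∈ W` -/
def GW {V : Type u} [AddCommGroup V] [Module F V] (W : Submodule F V) :
    Submodule F (Gr F ⊗[F] V) := Submodule.span F {t | ∃ g : Gr F, ∃ c ∈ W, t = g ⊗ₜ[F] c}

/-! ### Scalar extension -/

/-- **SE.** Identities pass to scalar extensions. `K` acts on the algebra `E` through `ρ` (central
multiplications), `H` is an `F`-subalgebra of `E`; if `f` vanishes on `H` then `f` vanishes on the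
span of the `ρ κ y`, `y ∈ H`.

Proof. Write `v n = ∑_{j < m n} ρ (κ n j) (y n j)`, `y n j ∈ H`. Let `T = MvPolynomial (ℕ × ℕ) F` and
`w n = ∑_j X (n,j) ⊗ y n j ∈ T ⊗[F] E`, an algebra over `F`. For `t : ℕ × ℕ → F` the evaluation
`ev_t : T ⊗ E → E`, `p ⊗ x ↦ p(t) • x` is a homomorphism of `F`-algebras with `ev_t (w n) ∈ H`, so
`ev_t (lift w f) = lift (ev_t ∘ w) f = 0` for all `t`. The evaluations are jointly injective (choose a basis of `E`
over `F` and use `MvPolynomial.funext`), so `lift w f = 0`. The map `T ⊗ E → E`,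
`p ⊗ x ↦ ρ (aeval κ p) x`, is a homomorphism and sends `w n` to `v n`; hence `lift v f = 0`.
(`FreeNonUnitalNonAssocAlgebra.lift` is compatible with homomorphisms: `hom_ext`.) -/
def S_SE : Prop := ∀ (F : Type u) [Field F] [Infinite F] (K : Type u) [CommRing K] [Algebra F K]
  (E : Type u) [NonUnitalNonAssocRing E] [Module F E] [SMulCommClass F E E] [IsScalarTower F E E]
  (ρ : K →ₐ[F] Module.End F E), (∀ κ x y, ρ κ (x * y) = ρ κ x * y) →
  (∀ κ x y, ρ κ (x * y) = x * ρ κ y) → ∀ (H : NonUnitalSubalgebra F E) (f : NAPoly F),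
  (∀ v : ℕ → E, (∀ n, v n ∈ H) → FreeNonUnitalNonAssocAlgebra.lift F v f = 0) →
  ∀ v : ℕ → E, (∀ n, v n ∈ Submodule.span F {x | ∃ κ, ∃ y ∈ H, x = ρ κ y}) →
    FreeNonUnitalNonAssocAlgebra.lift F v f = 0

/-! ### Odd extensions -/

/-- `D` is the superalgebra `C[ξ_0, …, ξ_(N-1)]` with `N` odd variables: `i c = c`,
`j k c = ξ_k c`, and `Φ` embeds the envelope of `D` in the envelope of `C`. -/
structure OddExt (C D : SuperAlg F) (N : ℕ) where
  i : C.carrier →ₗ[F] D.carrier
  j : ℕ → C.carrier →ₗ[F] D.carrier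
  Φ : Gr F ⊗[F] D.carrier →ₗ[F] Gr F ⊗[F] C.carrier
  i_mul : ∀ x y, i (x * y) = i x * i y
  i_mem : ∀ p, ∀ x ∈ C.part p, i x ∈ D.part p
  j_mem : ∀ k, k < N → ∀ p, ∀ x ∈ C.part p, j k x ∈ D.part (p + 1)
  Φ_i : ∀ g x, Φ (g ⊗ₜ i x) = (shn F N g) ⊗ₜ x
  Φ_j : ∀ k, k < N → ∀ g x, Φ (g ⊗ₜ j k x) = (e F k * shn F N g) ⊗ₜ x
  Φ_inj : Function.Injective Φ
  Φ_mem : ∀ x ∈ envSpace D.part, Φ x ∈ envSpace C.part
  Φ_mul : ∀ x ∈ envSpace D.part, ∀ y ∈ envSpace D.part, Φ (x * y) = Φ x * Φ y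

/-- **ONE.** One odd variable. `D = C × C`, the pair `(a, a')` stands for `a + ξ a'`, with
`(a, a') * (b, b') = (a b, a' b + π(a) b')`, where `π(a) = a₀ - a₁` is the parity automorphism
(`ξ a = π(a) ξ`, `ξ² = 0`). Parts: `D_p = C_p × C_(p+1)`. `i a = (a, 0)`, `j k a' = (0, a')`,
`Φ (g ⊗ (a, a')) = sh g ⊗ a + (e_0 * sh g) ⊗ a'` (`sh = shiftG`). `Φ` is injective on all of `Gr ⊗ D`: use the linear
map `contractLeft` with the functional `e_0*` (`Pool.Agent.Q29.SR.contract_shift`: it kills `sh g`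
and sends `e_0 * sh g` to `sh g`), tensored with `C`, and injectivity of `sh ⊗ id` (`shiftG_injective`, flatness).
`Φ` is multiplicative on the envelope: for `|g| = |a|`, `|g'| = |b'| + 1`:
`(sh g ⊗ a)(e_0 sh g' ⊗ b') = sh g e_0 sh g' ⊗ a b' = (-1)^|g| e_0 sh(g g') ⊗ a b'` and
`a * ξ b' = (-1)^|a| ξ a b'`; `(e_0 sh g ⊗ a')(sh g' ⊗ b) = e_0 sh (g g') ⊗ a' b`;
`e_0 x e_0 = 0` for homogeneous `x`. See `even_comm`, `odd_comm`, `shiftG_mem` in `Pool.Agent.Q29.SR.Gras`.
It is enough to check on the generators `g ⊗ d`, `g ∈ Gr_p`, `d ∈ D_p`, of `envSpace` (span induction). -/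
def S_ONE : Prop := ∀ (F : Type u) [Field F] [CharZero F] (C : SuperAlg F),
  ∃ D : SuperAlg F, Nonempty (OddExt C D 1)

/-- **EXT.** `N` odd variables, by induction on `N` from `S_ONE`. `N = 0`: `D = C`, `i = id`,
`Φ = id`. Step: let `D` with `i, j, Φ` belong to `C, N` and let `D'` with `i1, j1, Φ1` belong to
`D, 1`; put `i' = i1 ∘ i`, `j' k = i1 ∘ j k` for `k < N` and `j' k = j1 0 ∘ i` for `k ≥ N`, `Φ' = Φ ∘ Φ1`. Then
`Φ' (g ⊗ i1 (i x)) = Φ (sh g ⊗ i x) = shn N (sh g) ⊗ x`,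
`Φ' (g ⊗ i1 (j k x)) = e_k shn N (sh g) ⊗ x`, and
`Φ' (g ⊗ j1 0 (i x)) = Φ (e_0 sh g ⊗ i x) = shn N (e_0 * sh g) ⊗ x = e_N * shn (N+1) g ⊗ x`. -/
def S_EXT : Prop := ∀ (F : Type u) [Field F] [CharZero F] (C : SuperAlg F) (N : ℕ),
  ∃ D : SuperAlg F, Nonempty (OddExt C D N)

/-- **SUB.** The subalgebra generated by homogeneous elements is a superalgebra. `A.carrier` is
the subtype of `NonUnitalAlgebra.adjoin F (range a ∪ range b)`, `A.part p` the comap of `D.part p`.
`IsCompl`: every element of the adjoin is a sum of an even and an odd element of it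
(`NonUnitalAlgebra.adjoin_induction`). -/
def S_SUB : Prop := ∀ (F : Type u) [Field F] (D : SuperAlg F) (r s : ℕ) (a : Fin r → D.carrier)
  (b : Fin s → D.carrier), (∀ k, a k ∈ D.part 0) → (∀ k, b k ∈ D.part 1) →
  ∃ (A : SuperAlg F) (ι : A.carrier →ₗ[F] D.carrier), Function.Injective ι ∧
    (∀ x y, ι (x * y) = ι x * ι y) ∧ (∀ p x, x ∈ A.part p ↔ ι x ∈ D.part p) ∧
    A.GeneratedBy r s ∧
    ∀ y ∈ NonUnitalAlgebra.adjoin F (Set.range a ∪ Set.range b), ∃ x, ι x = y

/-! ### Base change -/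

/-- **BC.** The superalgebra `K ⊗ B`. `C.carrier = K ⊗[F] B.carrier` with the usual multiplication,
`C.part p` = range of `K ⊗ B.part p` in `K ⊗ B`. Both directions of the last statement:
(→) `Gr ⊗ C` carries the action `ρ κ = id ⊗ (κ • ·)` of `K`, the elements `g ⊗ (1 ⊗ b)` give a homomorphism
`ψ` from the envelope of `B` into the envelope of `C`; `f` vanishes on its range `H`, and every
element of the envelope of `C` is in the span of the `ρ κ y`, `y ∈ H`; apply `S_SE`.
(←) `ψ` is injective (`K` is free over `F`) and a homomorphism. -/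
def S_BC : Prop := ∀ (F : Type u) [Field F] [Infinite F] (K : Type u) [Field K] [Algebra F K]
  (B : SuperAlg F), ∃ (C : SuperAlg F) (φ : C.carrier ≃ₗ[F] K ⊗[F] B.carrier),
    (∀ x y, φ (x * y) = φ x * φ y) ∧
    (∀ p x, x ∈ C.part p ↔ φ x ∈ LinearMap.range (LinearMap.lTensor K (B.part p).subtype)) ∧
    ∀ f : NAPoly F, B.envelope.Satisfies f ↔ C.envelope.Satisfies f

/-! ### Structure of finite-dimensional superalgebras over an algebraically closed field -/

/-- `pw J n` is the span of the products of `n + 1` elements of `J`. -/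
def pw {K C : Type u} [Field K] [NonUnitalNonAssocRing C] [Module K C] (J : Submodule K C) :
    ℕ → Submodule K C
  | 0 => J
  | n + 1 => Submodule.span K {z | ∃ x ∈ J, ∃ y ∈ pw J n, z = x * y}

/-- `J ⊆ R` is a nilpotent two-sided ideal of the subalgebra `R` of `C`. -/
def NilIdeal {K C : Type u} [Field K] [NonUnitalNonAssocRing C] [Module K C]
    (R J : Submodule K C) : Prop :=
  J ≤ R ∧ (∀ x ∈ J, ∀ y ∈ R, x * y ∈ J ∧ y * x ∈ J) ∧ ∃ n, pw J n = ⊥

/-- **WA.** A finite-dimensional associative algebra `R` (without unit, in general) over an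
algebraically closed field is generated by two elements modulo its largest nilpotent ideal.

Proof. `U = Unitization K R`, a finite-dimensional algebra with unit; `Rad` its Jacobson radical,
nilpotent (`IsArtinianRing.isNilpotent_jacobson_bot` or similar), contained in `R` because `U / R = K` is a field
(`R` is a maximal ideal). Nilpotent ideals of `R` are nilpotent ideals of `U`, hence in `Rad`. `U / Rad` is
semisimple, so isomorphic to `∏_i M_{n_i}(K)` (`IsSemisimpleRing.exists_algEquiv_pi_matrix_of_isAlgClosed`).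
`∏_i M_{n_i}(K)` is generated as an algebra WITHOUT unit by `w1` = diagonal matrices with pairwise
distinct nonzero entries (distinct also for different `i`; `K` is infinite) and `w2` = the matrices with all entries
`1`: polynomials in `w1` without constant term give all `E_kk` of all blocks (Lagrange), and
`E_kk w2 E_ll = E_kl`. The image `L` of `R` in `∏_i M_{n_i}(K)` is a two-sided ideal of a semisimple
ring, so it has a unit element `ε`, a central idempotent of the product (for instance: `L` is the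
product of the blocks which it meets); `x ↦ ε x` is a homomorphism of the product onto `L`, so `ε w1`, `ε w2`
generate `L` without unit. Let `u, v ∈ R` be preimages. -/
def S_WA : Prop := ∀ (K : Type u) [Field K] [IsAlgClosed K] (R : Type u) [NonUnitalNonAssocRing R]
  [Module K R] [SMulCommClass K R R] [IsScalarTower K R R] [FiniteDimensional K R],
  (∀ x y z : R, x * y * z = x * (y * z)) →
  ∃ (u v : R) (J : Submodule K R), NilIdeal ⊤ J ∧ (∀ J', NilIdeal ⊤ J' → J' ≤ J) ∧
    ∀ x : R, x ∈ Submodule.span K (Subsemigroup.closure {u, v} : Set R) ⊔ J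

/-- **FIL.** Let `C = C₀ ⊕ C₁` be an associative superalgebra and `J` the largest nilpotent ideal of
`C₀`. There is a nilpotent filtration `W` of `C` with `J ⊆ W 1`.

Proof. `C₁ J C₁` (the span) is an ideal of `C₀` and it is nilpotent:
`(C₁ J C₁)^k ⊆ C₁ J (C₁C₁) J ⋯ J C₁ ⊆ C₁ J^k C₁` as `C₁ C₁ ⊆ C₀` and `J C₀ ⊆ J`. So it is contained in `J`.
Put `L = J + C₁ J + J C₁` (spans). `L` is a two-sided ideal of `C` (`C₁(C₁J) ⊆ C₀ J ⊆ J`, `(C₁J)C₁ ⊆ J`, …) and
`L = (L ∩ C₀) ⊕ (L ∩ C₁)` with `L ∩ C₀ = J`. If `J^k = 0` then `L^(2k) = 0`: a product of `2k` homogeneous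
elements of `L` has `2k + 1` prefixes, of which `k + 1` have the same parity; between two
consecutive ones of them there is an even block, an element of `L ∩ C₀ = J` up to reassociation; the product of `k` such blocks is `0`.
(Alternatively by induction: the even part of `L^(2m)` is in the span of … ; any proof of
nilpotency will do.) `W 0 = ⊤`, `W (d+1) = pw L d` (and `⊥` from some `N` on). -/
def S_FIL : Prop := ∀ (K : Type u) [Field K] (C : Type u) [NonUnitalNonAssocRing C]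
  [Module K C] [SMulCommClass K C C] [IsScalarTower K C C],
  (∀ x y z : C, x * y * z = x * (y * z)) → ∀ C₀ C₁ : Submodule K C, IsCompl C₀ C₁ →
  (∀ x ∈ C₀, ∀ y ∈ C₀, x * y ∈ C₀) → (∀ x ∈ C₀, ∀ y ∈ C₁, x * y ∈ C₁) →
  (∀ x ∈ C₁, ∀ y ∈ C₀, x * y ∈ C₁) → (∀ x ∈ C₁, ∀ y ∈ C₁, x * y ∈ C₀) →
  ∀ J : Submodule K C, NilIdeal C₀ J → (∀ J', NilIdeal C₀ J' → J' ≤ J) →
  ∃ (N : ℕ) (W : ℕ → Submodule K C), W 0 = ⊤ ∧ (∀ d, N ≤ d → W d = ⊥) ∧
    (∀ a b, ∀ x ∈ W a, ∀ y ∈ W b, x * y ∈ W (a + b)) ∧ J ≤ W 1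

/-- **STR.** Structure of a finite-dimensional superalgebra over an algebraically closed field.
Proof: apply `S_WA` to the subalgebra `C₀` (a subtype) and transport the result to `C`, then
`S_FIL`. -/
def S_STR : Prop := ∀ (K : Type u) [Field K] [IsAlgClosed K] (C : Type u)
  [NonUnitalNonAssocRing C] [Module K C] [SMulCommClass K C C] [IsScalarTower K C C]
  [FiniteDimensional K C], (∀ x y z : C, x * y * z = x * (y * z)) →
  ∀ C₀ C₁ : Submodule K C, IsCompl C₀ C₁ →
  (∀ x ∈ C₀, ∀ y ∈ C₀, x * y ∈ C₀) → (∀ x ∈ C₀, ∀ y ∈ C₁, x * y ∈ C₁) →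
  (∀ x ∈ C₁, ∀ y ∈ C₀, x * y ∈ C₁) → (∀ x ∈ C₁, ∀ y ∈ C₁, x * y ∈ C₀) →
  ∃ u ∈ C₀, ∃ v ∈ C₀, ∃ (N : ℕ) (W : ℕ → Submodule K C), W 0 = ⊤ ∧ (∀ d, N ≤ d → W d = ⊥) ∧
    (∀ a b, ∀ x ∈ W a, ∀ y ∈ W b, x * y ∈ W (a + b)) ∧
    ∀ x ∈ C₀, ∃ x' ∈ Submodule.span K (Subsemigroup.closure {u, v} : Set C),
      ∃ x'' ∈ W 1 ⊓ C₀, x = x' + x''

/-! ### The variable `τ` -/

/-- **TAU.** The powers `1, τ, …, τ^(N-1)` (in fact also `τ^N`) are independent over the shifted
elements.

Proof. `τ = ∑_{k<N} θ_k`, `θ_k = e_k e_(N+k)` commute and have square `0`, so `τ^(N+1) = 0` and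
`τ^N = N! θ_0 ⋯ θ_(N-1) = ± N! e_0 e_1 ⋯ e_(2N-1)`. Further `e_0 e_1 ⋯ e_(2N-1) sg(q) = 0` implies `q = 0`: this
element is `e_0 sh(e_0 sh(⋯ e_0 sh(q)))`, and `e_0 sh(x) = 0` implies `x = 0`
(`contract_shift`, `shiftG_injective`, tensored with `V`). Now let `∑_{d<N} τ^d sg(q_d) = 0` and let `d` be
minimal with `q_d ≠ 0`; multiply by `τ^(N-d)`: `τ^N sg(q_d) = 0`, a contradiction. -/
def S_TAU : Prop := ∀ (F : Type u) [Field F] [CharZero F] (V : Type u) [AddCommGroup V]
  [Module F V] (N : ℕ) (q : ℕ → Gr F ⊗[F] V),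
  ∑ d ∈ Finset.range N, ((mt V N) ^ d) (sg V N (q d)) = 0 → ∀ d, d < N → q d = 0

/-- **RQ.** Let `W` be a nilpotent filtration. If `f` vanishes at `sg x' + τ sg x''`, `x'' ∈ Gr ⊗ W 1`,
then `f` vanishes at `x' + x''`.

Proof. Let `E = Gr ⊗ C` and let `Q ⊆ E × E` be the set of the pairs
`(∑_{d<N} τ^d sg(q_d), ∑_{d<N} q_d)` with `q_d ∈ GW (W d)`. It is a subspace, closed under
multiplication: `τ` commutes with everything (it is even: `mt (x y) = mt x * y = x * mt y`), `sg` is multiplicative,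
`GW (W a) * GW (W b) ⊆ GW (W (a+b))`, and `GW (W d) = 0` for `d ≥ N`. The pair
`(sg x' n + τ sg x'' n, x' n + x'' n)` is in `Q` (`q_0 = x'`, `q_1 = x''`; if `N ≤ 1` use `W 1 = 0` or
`E = 0`), hence so is the pair of the values of `f` (the two projections are homomorphisms; induction on `f` or
`lift` into the subalgebra `Q`). If the first component is `0` then all `q_d = 0` by `S_TAU`, so the second is `0`. -/
def S_RQ : Prop := ∀ (F : Type u) [Field F] [CharZero F] (C : Type u) [NonUnitalNonAssocRing C]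
  [Module F C] [SMulCommClass F C C] [IsScalarTower F C C] (N : ℕ) (W : ℕ → Submodule F C),
  W 0 = ⊤ → (∀ a b, ∀ x ∈ W a, ∀ y ∈ W b, x * y ∈ W (a + b)) → (∀ d, N ≤ d → W d = ⊥) →
  ∀ (f : NAPoly F) (x' x'' : ℕ → Gr F ⊗[F] C), (∀ n, x'' n ∈ GW (W 1)) →
  FreeNonUnitalNonAssocAlgebra.lift F (fun n => sg C N (x' n) + mt C N (sg C N (x'' n))) f = 0 →
  FreeNonUnitalNonAssocAlgebra.lift F (fun n => x' n + x'' n) f = 0

end

end Pool.Agent.Q199.SR
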