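import Pool.Agent.Q199.SR.Stm

/-!
Project SR, part TAU: the powers of `τ` are independent over the shifted elements (helper110).
-/

open TensorProduct

namespace Pool.Agent.Q199.SR

open Pool.Agent.Q29.SR

universe u

namespace TAU

section ring

variable {R : Type*} [Ring R]

theorem pow_add (a S : R) (hc : a * S = S * a) (ha : a * a = 0) (n : ℕ) :
    (a + S) ^ (n + 1) = S ^ (n + 1) + (n + 1) • (a * S ^ n) := by
  induction n with
  | zero => simp [add_comm]
  | succ n ih =>
    rw [pow_succ', ih]
    have h1 : S * (a * S ^ n) = a * S ^ (n + 1) := by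
      rw [← mul_assoc, ← hc, mul_assoc, pow_succ' S n]
    have h2 : a * (a * S ^ n) = 0 := by rw [← mul_assoc, ha, zero_mul]
    rw [add_mul, mul_add, mul_add, mul_smul_comm, h2, mul_smul_comm, h1, smul_zero, add_zero,
      ← pow_succ' S (n + 1), add_smul (n + 1) 1, one_smul]
    abel

end ring

noncomputable section

variable {F : Type u} [Field F]

theorem e_mem (k : ℕ) : e F k ∈ GrPart F 1 := CliffordAlgebra.ι_mem_evenOdd_one _ _

/-- `θ_k = e_k e_(N+k)` -/
def th (N k : ℕ) : Gr F := e F k * e F (N + k)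

theorem th_mem (N k : ℕ) : (th N k : Gr F) ∈ GrPart F 0 := by
  have h := SetLike.mul_mem_graded (A := CliffordAlgebra.evenOdd (0 : QuadraticForm F (ℕ →₀ F)))
    (e_mem (F := F) k) (e_mem (F := F) (N + k))
  exact h

theorem th_comm (N k : ℕ) (g : Gr F) : th N k * g = g * th N k := even_comm (th_mem N k) g

theorem e_sq (k : ℕ) : e F k * e F k = 0 := ExteriorAlgebra.ι_sq_zero _

theorem th_sq (N k : ℕ) : (th N k : Gr F) * th N k = 0 := by
  unfold th
  have h : e F (N + k) * e F k = - (e F k * e F (N + k)) :=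
    eq_neg_of_add_eq_zero_left (ExteriorAlgebra.ι_add_mul_swap _ _)
  rw [mul_assoc, ← mul_assoc (e F (N + k)), h, neg_mul, mul_neg, ← mul_assoc, ← mul_assoc, e_sq,
    zero_mul, zero_mul, neg_zero]

/-- `T_n = ∑_{k<n} θ_k` -/
def TT (N n : ℕ) : Gr F := ∑ k ∈ Finset.range n, th N k

/-- `P_n = θ_(n-1) ⋯ θ_0` -/
def PP (N : ℕ) : ℕ → Gr F
  | 0 => 1
  | n + 1 => th N n * PP N n

theorem tau_eq (N : ℕ) : tau F N = TT N N := rfl

theorem TT_pow (N n : ℕ) : (TT N n : Gr F) ^ n = n.factorial • PP N n ∧
    (TT N n : Gr F) ^ (n + 1) = 0 := by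
  induction n with
  | zero => simp [TT, PP]
  | succ n ih =>
    have h : (TT N (n + 1) : Gr F) = th N n + TT N n := by
      unfold TT
      rw [Finset.sum_range_succ, add_comm]
    rw [h, pow_add _ _ (th_comm N n _) (th_sq N n) n,
      pow_add _ _ (th_comm N n _) (th_sq N n) (n + 1), ih.2, ih.1]
    constructor
    · rw [zero_add, mul_smul_comm, smul_smul, Nat.factorial_succ]
      rfl
    · rw [pow_succ, ih.2, zero_mul, mul_zero, smul_zero, add_zero]

/-- contraction with `e_k*` -/
def dc (k : ℕ) : Gr F →ₗ[F] Gr F :=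
  CliffordAlgebra.contractLeft (Q := (0 : QuadraticForm F (ℕ →₀ F)))
    (Finsupp.lapply k : (ℕ →₀ F) →ₗ[F] F)

theorem dc_iota (k : ℕ) (v : ℕ →₀ F) (y : Gr F) :
    dc k (ExteriorAlgebra.ι F v * y) = v k • y - ExteriorAlgebra.ι F v * dc k y :=
  CliffordAlgebra.contractLeft_ι_mul _ _ _

theorem dc_e (k j : ℕ) (y : Gr F) :
    dc k (e F j * y) = (if j = k then (1 : F) else 0) • y - e F j * dc k y := by
  have := dc_iota k (Finsupp.single j (1 : F)) y
  rw [Finsupp.single_apply] at this
  exact this

theorem shn_iota (m : ℕ) (v : ℕ →₀ F) :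
    shn F m (ExteriorAlgebra.ι F v) = ExteriorAlgebra.ι F (Finsupp.mapDomain (fun k => k + m) v) := by
  induction m generalizing v with
  | zero =>
    change ExteriorAlgebra.ι F v = _
    congr 1
    exact Finsupp.mapDomain_id.symm
  | succ m ih =>
    change shn F m (shiftG (ExteriorAlgebra.ι F v)) = _
    rw [shiftG_iota, ih]
    congr 1
    change Finsupp.mapDomain _ (Finsupp.mapDomain Nat.succ v) = _
    rw [← Finsupp.mapDomain_comp]
    congr 1
    funext k
    simp only [Function.comp, Nat.succ_eq_add_one]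
    omega

theorem dc_shn (m k : ℕ) (hk : k < m) (x : Gr F) : dc k (shn F m x) = 0 := by
  induction x using CliffordAlgebra.left_induction with
  | algebraMap r => rw [AlgHom.commutes]; exact CliffordAlgebra.contractLeft_algebraMap _ _ r
  | add x y ihx ihy => rw [map_add, map_add, ihx, ihy, add_zero]
  | ι_mul x v ih =>
    rw [map_mul]
    change dc k (shn F m (ExteriorAlgebra.ι F v) * shn F m x) = 0
    rw [shn_iota, dc_iota, ih, mul_zero, sub_zero, Finsupp.mapDomain_of_notMem_range, zero_smul]
    rintro ⟨n, hn⟩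
    simp only at hn
    omega

theorem dc_PP (N n : ℕ) (x : Gr F) (hn : n ≤ N) (j : ℕ) (hj : j < 2 * N)
    (h1 : ∀ k, k < n → j ≠ k ∧ j ≠ N + k) : dc j (PP N n * shn F (2 * N) x) = 0 := by
  induction n with
  | zero => 
    change dc j (1 * shn F (2 * N) x) = 0
    rw [one_mul, dc_shn _ _ hj]
  | succ n ih =>
    have ih' := ih (by omega) (fun k hk => h1 k (by omega))
    have h2 := h1 n (by omega)
    change dc j (e F n * e F (N + n) * PP N n * shn F (2 * N) x) = 0
    rw [mul_assoc, mul_assoc, dc_e, dc_e, ih', if_neg (Ne.symm h2.1), if_neg (Ne.symm h2.2)]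
    simp

/-- the left inverse of the multiplication with `P_n` -/
def LL (N : ℕ) : ℕ → (Gr F →ₗ[F] Gr F)
  | 0 => LinearMap.id
  | n + 1 => (LL N n).comp ((dc (N + n)).comp (dc n))

theorem LL_PP (N n : ℕ) (x : Gr F) (hn : n ≤ N) :
    LL N n (PP N n * shn F (2 * N) x) = shn F (2 * N) x := by
  induction n with
  | zero =>
    change 1 * shn F (2 * N) x = _
    rw [one_mul]
  | succ n ih =>
    have ih' := ih (by omega)
    have h1 := dc_PP N n x (by omega) n (by omega) (fun k hk => ⟨by omega, by omega⟩)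
    have h2 := dc_PP N n x (by omega) (N + n) (by omega) (fun k hk => ⟨by omega, by omega⟩)
    change LL N n (dc (N + n) (dc n (e F n * e F (N + n) * PP N n * shn F (2 * N) x))) = _
    rw [mul_assoc, mul_assoc, dc_e, dc_e, h1, if_pos rfl, if_neg (by omega), zero_smul, mul_zero,
      sub_zero, mul_zero, sub_zero, one_smul, dc_e, h2, if_pos rfl, mul_zero, sub_zero, one_smul, ih']

theorem shn_injective (m : ℕ) : Function.Injective (shn F m) := by
  induction m with
  | zero => exact Function.injective_id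
  | succ m ih => exact ih.comp shiftG_injective

variable (V : Type u) [AddCommGroup V] [Module F V]

theorem sg_injective (N : ℕ) : Function.Injective (sg (F := F) V N) :=
  Module.Flat.rTensor_preserves_injective_linearMap _ (shn_injective (2 * N))

theorem mt_pow (N d : ℕ) : (mt (F := F) V N) ^ d =
    LinearMap.rTensor V (LinearMap.mulLeft F (tau F N ^ d)) := by
  unfold mt
  rw [LinearMap.rTensor_pow, LinearMap.pow_mulLeft]

theorem key [CharZero F] (N : ℕ) (x : Gr F ⊗[F] V) (h : ((mt V N) ^ N) (sg V N x) = 0) : x = 0 := by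
  apply sg_injective V N
  rw [map_zero]
  have h1 : ((LinearMap.rTensor V (LL N N : Gr F →ₗ[F] Gr F)).comp
      (((mt (F := F) V N) ^ N).comp (sg V N))) = (N.factorial : F) • sg V N := by
    rw [mt_pow]
    unfold sg
    rw [← LinearMap.rTensor_comp, ← LinearMap.rTensor_comp, ← LinearMap.rTensor_smul]
    congr 1
    apply LinearMap.ext
    intro y
    change LL N N (tau F N ^ N * shn F (2 * N) y) = (N.factorial : F) • shn F (2 * N) y
    rw [tau_eq, (TT_pow N N).1, smul_mul_assoc, map_nsmul, LL_PP N N y le_rfl, Nat.cast_smul_eq_nsmul]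
  have h2 := LinearMap.congr_fun h1 x
  change LinearMap.rTensor V (LL N N : Gr F →ₗ[F] Gr F) (((mt (F := F) V N) ^ N) (sg V N x)) =
    (N.factorial : F) • sg V N x at h2
  rw [h, map_zero] at h2
  exact (smul_eq_zero.mp h2.symm).resolve_left (Nat.cast_ne_zero.mpr (Nat.factorial_ne_zero N))

theorem mt_zero (N d : ℕ) (hd : N < d) : (mt (F := F) V N) ^ d = 0 := by
  rw [mt_pow, tau_eq, pow_eq_zero_of_le hd (TT_pow N N).2, LinearMap.mulLeft_zero_eq_zero,
    LinearMap.rTensor_zero]

end

end TAU

theorem t_TAU : S_TAU.{u} := by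
  intro F _ _ V _ _ N q h d
  induction d using Nat.strong_induction_on with
  | _ d ih =>
    intro hd
    apply TAU.key V N
    have h1 := congrArg ((mt (F := F) V N) ^ (N - d)) h
    rw [map_sum, map_zero, Finset.sum_eq_single_of_mem d (Finset.mem_range.mpr hd)] at h1
    · rw [← Module.End.mul_apply, ← pow_add] at h1
      rwa [Nat.sub_add_cancel hd.le] at h1
    · intro c hc hcd
      rw [Finset.mem_range] at hc
      rcases lt_or_gt_of_ne hcd with h2 | h2
      · rw [ih c h2 hc]
        simp
      · rw [← Module.End.mul_apply, ← pow_add, TAU.mt_zero V N _ (by omega)]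
        rfl

end Pool.Agent.Q199.SR
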