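import Pool.Agent.Q199.SR.Stm

/-!
Transfer of identities along embeddings of Grassmann envelopes.
-/

open TensorProduct

namespace Pool.Agent.Q199.SR

open Pool.Agent.Q29.SR

universe u

noncomputable section

namespace Tr

variable {F : Type u} [Field F]

theorem hom_lift {A B : Type u} [NonUnitalNonAssocRing A] [Module F A] [SMulCommClass F A A]
    [IsScalarTower F A A] [NonUnitalNonAssocRing B] [Module F B] [SMulCommClass F B B]
    [IsScalarTower F B B] (ψ : A →ₙₐ[F] B) (v : ℕ → A) (f : NAPoly F) :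
    ψ (FreeNonUnitalNonAssocAlgebra.lift F v f) =
      FreeNonUnitalNonAssocAlgebra.lift F (fun n => ψ (v n)) f := by
  have : ψ.comp (FreeNonUnitalNonAssocAlgebra.lift F v) =
      FreeNonUnitalNonAssocAlgebra.lift F (fun n => ψ (v n)) := by
    apply FreeNonUnitalNonAssocAlgebra.hom_ext
    intro n
    simp
  rw [← this]
  rfl

variable {A C : SuperAlg F}

/-- the homomorphism of the envelopes -/
def hom (Ψ : Gr F ⊗[F] A.carrier →ₗ[F] Gr F ⊗[F] C.carrier)
    (hmul : ∀ x ∈ envSpace A.part, ∀ y ∈ envSpace A.part, Ψ (x * y) = Ψ x * Ψ y) :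
    envelope A.part (isSuper A) →ₙₐ[F] Gr F ⊗[F] C.carrier where
  toFun x := Ψ x.1
  map_smul' c x := Ψ.map_smul c x.1
  map_zero' := Ψ.map_zero
  map_add' x y := Ψ.map_add x.1 y.1
  map_mul' x y := hmul _ x.2 _ y.2

theorem hom_apply (Ψ : Gr F ⊗[F] A.carrier →ₗ[F] Gr F ⊗[F] C.carrier)
    (hmul : ∀ x ∈ envSpace A.part, ∀ y ∈ envSpace A.part, Ψ (x * y) = Ψ x * Ψ y)
    (x : envelope A.part (isSuper A)) : hom Ψ hmul x = Ψ x.1 := rfl

theorem coe_lift (v : ℕ → envelope C.part (isSuper C)) (f : NAPoly F) :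
    ((FreeNonUnitalNonAssocAlgebra.lift F v f : envelope C.part (isSuper C)) :
      Gr F ⊗[F] C.carrier) =
      FreeNonUnitalNonAssocAlgebra.lift F (fun n => (v n : Gr F ⊗[F] C.carrier)) f :=
  hom_lift (NonUnitalSubalgebraClass.subtype (envelope C.part (isSuper C))) v f

/-- identities go down along an embedding of the envelopes -/
theorem down (Ψ : Gr F ⊗[F] A.carrier →ₗ[F] Gr F ⊗[F] C.carrier)
    (hinj : Function.Injective Ψ) (hmem : ∀ x ∈ envSpace A.part, Ψ x ∈ envSpace C.part)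
    (hmul : ∀ x ∈ envSpace A.part, ∀ y ∈ envSpace A.part, Ψ (x * y) = Ψ x * Ψ y)
    (f : NAPoly F) (hf : C.envelope.Satisfies f) : A.envelope.Satisfies f := by
  rw [envelope_satisfies_iff] at hf ⊢
  intro v
  have h1 := hf (fun n => ⟨Ψ (v n).1, hmem _ (v n).2⟩)
  have h2 := congrArg (fun x : envelope C.part (isSuper C) => (x : Gr F ⊗[F] C.carrier)) h1
  beta_reduce at h2
  rw [coe_lift] at h2
  have h3 := hom_lift (hom Ψ hmul) v f
  have h4 : hom Ψ hmul (FreeNonUnitalNonAssocAlgebra.lift F v f) = 0 := by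
    rw [h3]
    exact h2
  rw [hom_apply] at h4
  apply Subtype.ext
  apply hinj
  rw [h4]
  exact Ψ.map_zero.symm

/-- the image of the envelope of `A` in `Gr ⊗ C` -/
def img (Ψ : Gr F ⊗[F] A.carrier →ₗ[F] Gr F ⊗[F] C.carrier)
    (hmul : ∀ x ∈ envSpace A.part, ∀ y ∈ envSpace A.part, Ψ (x * y) = Ψ x * Ψ y) :
    NonUnitalSubalgebra F (Gr F ⊗[F] C.carrier) := NonUnitalAlgHom.range (hom Ψ hmul)

theorem mem_img (Ψ : Gr F ⊗[F] A.carrier →ₗ[F] Gr F ⊗[F] C.carrier)
    (hmul : ∀ x ∈ envSpace A.part, ∀ y ∈ envSpace A.part, Ψ (x * y) = Ψ x * Ψ y)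
    {x : Gr F ⊗[F] A.carrier} (hx : x ∈ envSpace A.part) : Ψ x ∈ img Ψ hmul :=
  ⟨⟨x, hx⟩, rfl⟩

/-- an identity of the envelope of `A` vanishes on the image -/
theorem img_sat (Ψ : Gr F ⊗[F] A.carrier →ₗ[F] Gr F ⊗[F] C.carrier)
    (hmul : ∀ x ∈ envSpace A.part, ∀ y ∈ envSpace A.part, Ψ (x * y) = Ψ x * Ψ y)
    (f : NAPoly F) (hf : A.envelope.Satisfies f) (w : ℕ → Gr F ⊗[F] C.carrier)
    (hw : ∀ n, w n ∈ img Ψ hmul) : FreeNonUnitalNonAssocAlgebra.lift F w f = 0 := by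
  rw [envelope_satisfies_iff] at hf
  choose v hv using hw
  have h1 := hom_lift (hom Ψ hmul) v f
  rw [hf v, map_zero] at h1
  have h2 : (fun n => hom Ψ hmul (v n)) = w := funext fun n => hv n
  rw [h2] at h1
  exact h1.symm

end Tr

end

end Pool.Agent.Q199.SR
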