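import Pool.Agent.Q199.SR.Stm

/-!
Lemma job SR-WA (helper86): a finite-dimensional algebra without unit over an algebraically closed
field is generated by two elements modulo its largest nilpotent ideal.
-/

open TensorProduct

namespace Pool.Agent.Q199.SR.WA

open Pool.Agent.Q29.SR Pool.Agent.Q199.SR

universe u

/-! ### Products of matrix algebras -/

section matrices

variable {K : Type u} [Field K] {n : ℕ} (d : Fin n → ℕ)

/-- The product of matrix algebras. -/
abbrev S (K : Type u) [Field K] {n : ℕ} (d : Fin n → ℕ) : Type u :=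
  (i : Fin n) → Matrix (Fin (d i)) (Fin (d i)) K

/-- Diagonal elements. -/
def D (f : (i : Fin n) × Fin (d i) → K) : S K d := fun i => Matrix.diagonal (fun k => f ⟨i, k⟩)

lemma D_mul (f g : (i : Fin n) × Fin (d i) → K) : D d f * D d g = D d (fun a => f a * g a) := by
  funext i
  simp [D, Pi.mul_apply, Matrix.diagonal_mul_diagonal]

lemma D_sub (f g : (i : Fin n) × Fin (d i) → K) : D d f - D d g = D d (fun a => f a - g a) := by
  funext i
  simp only [D, Pi.sub_apply]
  rw [Matrix.diagonal_sub]

lemma D_smul (c : K) (f : (i : Fin n) × Fin (d i) → K) : c • D d f = D d (fun a => c * f a) := by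
  funext i
  simp only [D, Pi.smul_apply]
  rw [← Matrix.diagonal_smul]
  rfl

/-- Elements with one nonzero entry. -/
def E (i : Fin n) (k l : Fin (d i)) : S K d := Pi.single i (Matrix.single k l 1)

lemma E_mul_mul (i : Fin n) (k a b l : Fin (d i)) (x : S K d) :
    E d i k a * x * E d i b l = (x i a b) • E d i k l := by
  classical
  funext j
  simp only [E, Pi.mul_apply, Pi.smul_apply]
  by_cases h : j = i
  · subst h
    simp only [Pi.single_eq_same]
    rw [Matrix.single_mul_mul_single, one_mul, mul_one, Matrix.smul_single, smul_eq_mul, mul_one]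
  · rw [Pi.single_eq_of_ne h, Pi.single_eq_of_ne h, Pi.single_eq_of_ne h]
    simp

lemma D_single (a : (i : Fin n) × Fin (d i)) (f : (i : Fin n) × Fin (d i) → K)
    (hf : ∀ b, b ≠ a → f b = 0) : D d f = (f a) • E d a.1 a.2 a.2 := by
  classical
  obtain ⟨i, k⟩ := a
  funext j
  simp only [D, E, Pi.smul_apply]
  by_cases h : j = i
  · subst h
    rw [Pi.single_eq_same, Matrix.smul_single, smul_eq_mul, mul_one]
    ext p q
    by_cases hpq : p = q
    · subst hpq
      rw [Matrix.diagonal_apply_eq]
      by_cases hp : p = k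
      · subst hp
        simp
      · rw [hf ⟨j, p⟩ (by intro h; exact hp (eq_of_heq (Sigma.mk.inj h).2))]
        rw [Matrix.single_apply, if_neg (by tauto)]
    · rw [Matrix.diagonal_apply_ne _ hpq, Matrix.single_apply, if_neg]
      rintro ⟨rfl, rfl⟩
      exact hpq rfl
  · rw [Pi.single_eq_of_ne h, smul_zero]
    ext p q
    by_cases hpq : p = q
    · subst hpq
      rw [Matrix.diagonal_apply_eq, hf ⟨j, p⟩ (by intro h'; exact h (Sigma.mk.inj h').1)]
      rfl
    · rw [Matrix.diagonal_apply_ne _ hpq]
      rfl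

lemma sum_E (s : S K d) : s = ∑ i, ∑ k, ∑ l, (s i k l) • E d i k l := by
  classical
  funext j
  rw [Finset.sum_apply]
  rw [Finset.sum_eq_single j]
  · rw [Finset.sum_apply]
    conv_lhs => rw [Matrix.matrix_eq_sum_single (s j)]
    apply Finset.sum_congr rfl
    intro k _
    rw [Finset.sum_apply]
    apply Finset.sum_congr rfl
    intro l _
    rw [Pi.smul_apply, E, Pi.single_eq_same, Matrix.smul_single, smul_eq_mul, mul_one]
  · intro i _ hij
    rw [Finset.sum_apply]
    apply Finset.sum_eq_zero
    intro k _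
    rw [Finset.sum_apply]
    apply Finset.sum_eq_zero
    intro l _
    rw [Pi.smul_apply, E, Pi.single_eq_of_ne (Ne.symm hij), smul_zero]
  · intro h
    exact absurd (Finset.mem_univ j) h

theorem gen_pi [Infinite K] : ∃ w1 w2 : S K d, ∀ s : S K d,
    s ∈ NonUnitalAlgebra.adjoin K ({w1, w2} : Set (S K d)) := by
  classical
  have hinf : Infinite (({0}ᶜ : Set K)) :=
    Set.Infinite.to_subtype (Set.Finite.infinite_compl (Set.finite_singleton 0))
  let lam : (i : Fin n) × Fin (d i) → K := fun a =>
    ((Infinite.natEmbedding (({0}ᶜ : Set K)) (Fintype.equivFin ((i : Fin n) × Fin (d i)) a).val :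
      ({0}ᶜ : Set K)) : K)
  have hl0 : ∀ a, lam a ≠ 0 := fun a =>
    (Infinite.natEmbedding (({0}ᶜ : Set K)) (Fintype.equivFin _ a).val).2
  have hli : Function.Injective lam := by
    intro a b hab
    have h1 := (Infinite.natEmbedding (({0}ᶜ : Set K))).injective (Subtype.ext hab)
    exact (Fintype.equivFin _).injective (Fin.ext h1)
  let w2 : S K d := fun i => Matrix.of (fun _ _ => 1)
  refine ⟨D d lam, w2, ?_⟩
  set A := NonUnitalAlgebra.adjoin K ({D d lam, w2} : Set (S K d)) with hA
  have hw1 : D d lam ∈ A := NonUnitalAlgebra.subset_adjoin K (by simp)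
  have hw2 : w2 ∈ A := NonUnitalAlgebra.subset_adjoin K (by simp)
  have hprod : ∀ t : Finset ((i : Fin n) × Fin (d i)),
      D d (fun a => lam a * ∏ b ∈ t, (lam a - lam b)) ∈ A := by
    intro t
    induction t using Finset.induction_on with
    | empty => simpa using hw1
    | insert b t hb ih =>
      have h1 : D d (fun a => lam a * ∏ c ∈ insert b t, (lam a - lam c)) =
          D d (fun a => lam a * ∏ c ∈ t, (lam a - lam c)) * D d lam -
            lam b • D d (fun a => lam a * ∏ c ∈ t, (lam a - lam c)) := by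
        rw [D_mul, D_smul, D_sub]
        congr 1
        funext a
        rw [Finset.prod_insert hb]
        ring
      rw [h1]
      exact sub_mem (mul_mem ih hw1) (SMulMemClass.smul_mem _ ih)
  have hE : ∀ i (k : Fin (d i)), E d i k k ∈ A := by
    intro i k
    have h1 := hprod (Finset.univ.erase ⟨i, k⟩)
    rw [D_single d ⟨i, k⟩] at h1
    · set c := lam ⟨i, k⟩ * ∏ b ∈ Finset.univ.erase (⟨i, k⟩ : (i : Fin n) × Fin (d i)),
        (lam ⟨i, k⟩ - lam b) with hc
      have hc0 : c ≠ 0 := by
        rw [hc]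
        refine mul_ne_zero (hl0 _) (Finset.prod_ne_zero_iff.mpr fun b hb => ?_)
        rw [sub_ne_zero]
        intro h
        exact (Finset.ne_of_mem_erase hb) (hli h).symm
      have h2 := SMulMemClass.smul_mem (c⁻¹) h1
      rw [smul_smul, inv_mul_cancel₀ hc0, one_smul] at h2
      exact h2
    · intro b hb
      rw [Finset.prod_eq_zero (Finset.mem_erase.mpr ⟨hb, Finset.mem_univ b⟩) (sub_self _),
        mul_zero]
  intro s
  rw [sum_E d s]
  refine sum_mem fun i _ => sum_mem fun k _ => sum_mem fun l _ => SMulMemClass.smul_mem _ ?_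
  have h1 : E d i k k * w2 * E d i l l = E d i k l := by
    rw [E_mul_mul]
    simp [w2]
  rw [← h1]
  exact mul_mem (mul_mem (hE i k) hw2) (hE i l)

theorem ideal_unit (L : Submodule K (S K d)) (hl : ∀ s, ∀ x ∈ L, s * x ∈ L)
    (hr : ∀ s, ∀ x ∈ L, x * s ∈ L) :
    ∃ ε ∈ L, (∀ s, ε * s = s * ε) ∧ ∀ x ∈ L, ε * x = x := by
  classical
  let ε : S K d := fun i => if ∃ x ∈ L, x i ≠ 0 then 1 else 0
  have hε : ε = ∑ i, ∑ k, (if ∃ x ∈ L, x i ≠ 0 then E d i k k else 0) := by
    rw [sum_E d ε]
    apply Finset.sum_congr rfl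
    intro i _
    apply Finset.sum_congr rfl
    intro k _
    rw [Finset.sum_eq_single k]
    · simp only [ε]
      split_ifs
      · simp
      · simp
    · intro l _ hlk
      simp only [ε]
      split_ifs
      · rw [Matrix.one_apply_ne (Ne.symm hlk), zero_smul]
      · simp
    · intro h
      exact absurd (Finset.mem_univ k) h
  refine ⟨ε, ?_, ?_, ?_⟩
  · rw [hε]
    refine sum_mem fun i _ => sum_mem fun k _ => ?_
    split_ifs with h
    · obtain ⟨x, hx, hxi⟩ := h
      have : ∃ a b, x i a b ≠ 0 := by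
        by_contra hcon
        push Not at hcon
        apply hxi
        ext a b
        exact hcon a b
      obtain ⟨a, b, hab⟩ := this
      have h1 : (x i a b) • E d i k k ∈ L := by
        rw [← E_mul_mul d i k a b k x]
        exact hr _ _ (hl _ _ hx)
      have h2 := L.smul_mem ((x i a b)⁻¹) h1
      rwa [smul_smul, inv_mul_cancel₀ hab, one_smul] at h2
    · exact L.zero_mem
  · intro s
    funext i
    simp only [ε, Pi.mul_apply]
    split_ifs
    · rw [one_mul, mul_one]
    · rw [zero_mul, mul_zero]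
  · intro x hx
    funext i
    simp only [ε, Pi.mul_apply]
    split_ifs with h
    · rw [one_mul]
    · push Not at h
      rw [h x hx, mul_zero]

end matrices

/-! ### Algebras without unit -/

section nonunital

variable (K : Type u) [Field K] (R : Type u) [NonUnitalRing R] [Module K R]
  [SMulCommClass K R R] [IsScalarTower K R R]

omit [SMulCommClass K R R] [IsScalarTower K R R] in
lemma fin_unit [FiniteDimensional K R] : FiniteDimensional K (Unitization K R) :=
  Module.Finite.equiv (Unitization.linearEquiv K K R).symm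

lemma inr_left (y : Unitization K R) (x : R) :
    y * (x : Unitization K R) = ((y.fst • x + y.snd * x : R) : Unitization K R) := by
  conv_lhs => rw [← Unitization.inl_fst_add_inr_snd_eq y]
  rw [add_mul, Unitization.inl_mul_inr, ← Unitization.inr_mul, ← Unitization.inr_add]

lemma inr_right (y : Unitization K R) (x : R) :
    (x : Unitization K R) * y = ((y.fst • x + x * y.snd : R) : Unitization K R) := by
  conv_lhs => rw [← Unitization.inl_fst_add_inr_snd_eq y]
  rw [mul_add, Unitization.inr_mul_inl, ← Unitization.inr_mul, ← Unitization.inr_add]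

lemma pow_mem_pw (J' : Submodule K R) (x : R) (hx : x ∈ J') (m : ℕ) :
    ∃ z ∈ pw J' m, (x : Unitization K R) ^ (m + 1) = (z : Unitization K R) := by
  induction m with
  | zero => exact ⟨x, hx, by simp⟩
  | succ m ih =>
    obtain ⟨z, hz, he⟩ := ih
    refine ⟨x * z, Submodule.subset_span ⟨x, hx, z, hz, rfl⟩, ?_⟩
    rw [pow_succ', he, Unitization.inr_mul]

lemma mem_jac (J' : Submodule K R) (hJ : NilIdeal ⊤ J') (x : R) (hx : x ∈ J') :
    (x : Unitization K R) ∈ Ring.jacobson (Unitization K R) := by
  obtain ⟨_, hid, N, hN⟩ := hJ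
  rw [← Ideal.jacobson_bot, Ideal.mem_jacobson_iff]
  intro y
  have h1 : y.fst • x + y.snd * x ∈ J' :=
    J'.add_mem (J'.smul_mem _ hx) (hid x hx y.snd trivial).2
  obtain ⟨z, hz, he⟩ := pow_mem_pw K R J' _ h1 N
  rw [hN, Submodule.mem_bot] at hz
  have hnil : IsNilpotent (y * (x : Unitization K R)) := by
    refine ⟨N + 1, ?_⟩
    rw [inr_left, he, hz, Unitization.inr_zero]
  obtain ⟨u, hu⟩ := hnil.isUnit_one_add
  refine ⟨(↑u⁻¹ : Unitization K R), ?_⟩
  rw [Ideal.mem_bot]
  have h2 : (↑u⁻¹ : Unitization K R) * (1 + y * (x : Unitization K R)) = 1 := by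
    rw [← hu]
    exact Units.inv_mul u
  rw [mul_add, mul_one, ← mul_assoc] at h2
  rw [add_comm, h2, sub_self]

lemma pw_jac (J : Submodule K R)
    (hJ : ∀ x ∈ J, (x : Unitization K R) ∈ Ring.jacobson (Unitization K R)) (m : ℕ) :
    ∀ z ∈ pw J m, (z : Unitization K R) ∈ Ring.jacobson (Unitization K R) ^ (m + 1) := by
  induction m with
  | zero =>
    intro z hz
    rw [zero_add, Submodule.pow_one]
    exact hJ z hz
  | succ m ih =>
    intro z hz
    have hz' : z ∈ Submodule.span K {z | ∃ x ∈ J, ∃ y ∈ pw J m, z = x * y} := hz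
    refine Submodule.span_induction (p := fun (z : R) _ => (z : Unitization K R) ∈
      Ring.jacobson (Unitization K R) ^ (m + 1 + 1)) ?_ ?_ ?_ ?_ hz'
    · rintro _ ⟨x, hx, y, hy, rfl⟩
      rw [Unitization.inr_mul, Ideal.IsTwoSided.pow_succ]
      exact Ideal.mul_mem_mul (hJ x hx) (ih y hy)
    · rw [Unitization.inr_zero]; exact Submodule.zero_mem _
    · intro x y _ _ hx hy
      rw [Unitization.inr_add]
      exact Submodule.add_mem _ hx hy
    · intro c x _ hx
      have : ((c • x : R) : Unitization K R) = Unitization.inl c * (x : Unitization K R) := by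
        rw [Unitization.inl_mul_inr]
      rw [this]
      exact Ideal.mul_mem_left _ _ hx

theorem wa' [IsAlgClosed K] [FiniteDimensional K R] :
    ∃ (u v : R) (J : Submodule K R), NilIdeal ⊤ J ∧ (∀ J', NilIdeal ⊤ J' → J' ≤ J) ∧
      ∀ x : R, x ∈ Submodule.span K (Subsemigroup.closure {u, v} : Set R) ⊔ J := by
  have hfd := fin_unit K R
  have hart : IsArtinianRing (Unitization K R) := IsArtinianRing.of_finite K _
  have hnil : IsNilpotent (Ring.jacobson (Unitization K R)) := IsSemiprimaryRing.isNilpotent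
  let q : Unitization K R →ₐ[K] (Unitization K R ⧸ Ring.jacobson (Unitization K R)) :=
    Ideal.Quotient.mkₐ K _
  have hqs : Function.Surjective q := Ideal.Quotient.mkₐ_surjective K _
  have hfdq : FiniteDimensional K (Unitization K R ⧸ Ring.jacobson (Unitization K R)) :=
    Module.Finite.of_surjective q.toLinearMap hqs
  obtain ⟨n, d, _, ⟨e⟩⟩ := IsSemisimpleRing.exists_algEquiv_pi_matrix_of_isAlgClosed K
    (Unitization K R ⧸ Ring.jacobson (Unitization K R))
  let π : Unitization K R →ₐ[K] S K d := e.toAlgHom.comp q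
  have hπs : Function.Surjective π := e.surjective.comp hqs
  have hker : ∀ y, π y = 0 ↔ y ∈ Ring.jacobson (Unitization K R) := by
    intro y
    have h1 : π y = e (q y) := rfl
    rw [h1, map_eq_zero_iff e e.injective]
    exact Ideal.Quotient.eq_zero_iff_mem
  let ι : R →ₗ[K] Unitization K R := Unitization.inrHom K K R
  have hι : ∀ x : R, ι x = (x : Unitization K R) := fun _ => rfl
  let L : Submodule K (S K d) := LinearMap.range (π.toLinearMap ∘ₗ ι)
  have hLm : ∀ x : R, π (x : Unitization K R) ∈ L := fun x => ⟨x, rfl⟩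
  obtain ⟨ε, hεL, hεc, hε⟩ := ideal_unit d L
    (by
      rintro s _ ⟨x, rfl⟩
      obtain ⟨y, rfl⟩ := hπs s
      have : π y * (π.toLinearMap ∘ₗ ι) x = π (y * (x : Unitization K R)) := (map_mul π _ _).symm
      rw [this, inr_left]
      exact hLm _)
    (by
      rintro s _ ⟨x, rfl⟩
      obtain ⟨y, rfl⟩ := hπs s
      have : (π.toLinearMap ∘ₗ ι) x * π y = π ((x : Unitization K R) * y) := (map_mul π _ _).symm
      rw [this, inr_right]
      exact hLm _)
  obtain ⟨a, ha⟩ := hεL
  have ha' : π (a : Unitization K R) = ε := ha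
  obtain ⟨w1, w2, hw⟩ := gen_pi (K := K) d
  obtain ⟨r1, hr1⟩ := hπs w1
  obtain ⟨r2, hr2⟩ := hπs w2
  let u : R := r1.fst • a + a * r1.snd
  let v : R := r2.fst • a + a * r2.snd
  have hu : π (u : Unitization K R) = ε * w1 := by
    rw [← hr1, ← ha', ← map_mul, inr_right]
  have hv : π (v : Unitization K R) = ε * w2 := by
    rw [← hr2, ← ha', ← map_mul, inr_right]
  have hεε : ε * ε = ε := hε ε ⟨a, ha⟩
  have hB : ∀ s ∈ NonUnitalAlgebra.adjoin K ({w1, w2} : Set (S K d)),
      ∃ b ∈ NonUnitalAlgebra.adjoin K ({u, v} : Set R), π (b : Unitization K R) = ε * s := by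
    intro s hs
    induction hs using NonUnitalAlgebra.adjoin_induction with
    | mem x hx =>
      rcases hx with rfl | hx
      · exact ⟨u, NonUnitalAlgebra.subset_adjoin K (by simp), hu⟩
      · rw [Set.mem_singleton_iff] at hx
        subst hx
        exact ⟨v, NonUnitalAlgebra.subset_adjoin K (by simp), hv⟩
    | add x y _ _ hx hy =>
      obtain ⟨b, hb, hb'⟩ := hx
      obtain ⟨c, hc, hc'⟩ := hy
      refine ⟨b + c, add_mem hb hc, ?_⟩
      rw [Unitization.inr_add, map_add, hb', hc', mul_add]
    | zero => exact ⟨0, zero_mem _, by simp⟩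
    | mul x y _ _ hx hy =>
      obtain ⟨b, hb, hb'⟩ := hx
      obtain ⟨c, hc, hc'⟩ := hy
      refine ⟨b * c, mul_mem hb hc, ?_⟩
      rw [Unitization.inr_mul, map_mul, hb', hc']
      calc ε * x * (ε * y) = ε * (x * ε) * y := by simp only [mul_assoc]
        _ = ε * (ε * x) * y := by rw [← hεc x]
        _ = (ε * ε) * (x * y) := by simp only [mul_assoc]
        _ = ε * (x * y) := by rw [hεε]
    | smul r x _ hx =>
      obtain ⟨b, hb, hb'⟩ := hx
      refine ⟨r • b, SMulMemClass.smul_mem r hb, ?_⟩
      rw [Unitization.inr_smul, map_smul, hb', mul_smul_comm]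
  let J : Submodule K R := LinearMap.ker (π.toLinearMap ∘ₗ ι)
  have hJm : ∀ x : R, x ∈ J ↔ π (x : Unitization K R) = 0 := fun x => LinearMap.mem_ker
  refine ⟨u, v, J, ⟨le_top, ?_, ?_⟩, ?_, ?_⟩
  · intro x hx y _
    rw [hJm] at hx
    refine ⟨?_, ?_⟩
    · rw [hJm, Unitization.inr_mul, map_mul, hx, zero_mul]
    · rw [hJm, Unitization.inr_mul, map_mul, hx, mul_zero]
  · obtain ⟨N, hN⟩ := hnil
    refine ⟨N, ?_⟩
    rw [eq_bot_iff]
    intro z hz
    have h1 := pw_jac K R J (fun x hx => (hker _).mp ((hJm x).mp hx)) N z hz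
    rw [Submodule.pow_succ, hN] at h1
    have h2 : (z : Unitization K R) = 0 := by simpa using h1
    rw [Submodule.mem_bot]
    exact Unitization.inr_injective (R := K) (by simpa using h2)
  · intro J' hJ' x hx
    rw [hJm, hker]
    exact mem_jac K R J' hJ' x hx
  · intro x
    obtain ⟨b, hb, hb'⟩ := hB _ (hw (π (x : Unitization K R)))
    rw [hε _ (hLm x)] at hb'
    have h1 : b ∈ Submodule.span K (Subsemigroup.closure {u, v} : Set R) := by
      rw [← NonUnitalAlgebra.adjoin_eq_span]
      exact hb
    have h2 : x - b ∈ J := by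
      rw [hJm, Unitization.inr_sub, map_sub, hb', sub_self]
    have : x = b + (x - b) := by abel
    rw [this]
    exact Submodule.add_mem_sup h1 h2

end nonunital

end Pool.Agent.Q199.SR.WA

namespace Pool.Agent.Q199.SR

universe u

theorem t_WA : S_WA.{u} := by
  intro K _ _ R inst _ _ _ _ h
  let _ : NonUnitalRing R := { inst with mul_assoc := h }
  exact WA.wa' K R

end Pool.Agent.Q199.SR
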